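import Pool.Agent.H84.LG.Defs

set_option autoImplicit false

namespace Pool.H84.LG

section CoverAux

variable {A : Type} [CommGroup A] [Lattice A] [MulLeftMono A]

omit [MulLeftMono A] in
theorem cover_sup_one (K : CLS A) {x : A} (hx : x ∈ K.1) : x ⊔ 1 ∈ K.1 :=
  (K.2.1 x hx 1 K.1.one_mem).1

theorem cover_np_mul (K : CLS A) {x y : A} (hx : x ⊔ 1 ∈ K.1) (hy : y ⊔ 1 ∈ K.1) :
    (x * y) ⊔ 1 ∈ K.1 := by
  refine K.2.2 1 K.1.one_mem _ (K.1.mul_mem hx hy) _ le_sup_right ?_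
  apply sup_le
  · exact mul_le_mul' le_sup_left le_sup_left
  · calc (1 : A) = 1 * 1 := (one_mul 1).symm
      _ ≤ _ := mul_le_mul' le_sup_right le_sup_right

theorem cover_mem_of_np (K : CLS A) {x : A} (hx : x ⊔ 1 ∈ K.1) (hx' : x⁻¹ ⊔ 1 ∈ K.1) :
    x ∈ K.1 := by
  refine K.2.2 _ (K.1.inv_mem hx') _ hx _ ?_ le_sup_left
  rw [inv_le']
  exact le_sup_left

theorem cover_inf_mul_le {x y z : A} (hx : 1 ≤ x) (hy : 1 ≤ y) (hz : 1 ≤ z) :
    x ⊓ (y * z) ≤ (x ⊓ y) * (x ⊓ z) := by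
  rw [mul_inf, inf_mul, inf_mul]
  refine le_inf (le_inf ?_ ?_) (le_inf ?_ ?_)
  · exact inf_le_left.trans (le_mul_of_one_le_left' hx)
  · exact inf_le_left.trans (le_mul_of_one_le_left' hy)
  · exact inf_le_left.trans (le_mul_of_one_le_right' hz)
  · exact inf_le_right

theorem cover_inf_pow {a b : A} (ha : 1 ≤ a) (hb : 1 ≤ b) (h : b ⊓ a = 1) (n : ℕ) :
    b ⊓ a ^ n = 1 := by
  induction n with
  | zero => simpa using hb
  | succ n ih =>
    apply le_antisymm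
    · rw [pow_succ]
      calc b ⊓ (a ^ n * a) ≤ (b ⊓ a ^ n) * (b ⊓ a) :=
            cover_inf_mul_le hb (one_le_pow_of_one_le' ha n) ha
        _ = 1 := by rw [ih, h, one_mul]
    · exact le_inf hb (one_le_pow_of_one_le' ha _)

/-- the convex l-subgroup generated by `K` and `a ≥ 1` -/
def coverGen (K : CLS A) (a : A) (ha : 1 ≤ a) : CLS A :=
  ⟨{ carrier := {x | ∃ k ∈ K.1, 1 ≤ k ∧ ∃ n : ℕ, x ≤ k * a ^ n ∧ x⁻¹ ≤ k * a ^ n}
     one_mem' := ⟨1, K.1.one_mem, le_refl _, 0, by simp, by simp⟩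
     mul_mem' := by
      rintro x y ⟨k, hk, hk1, n, h1, h2⟩ ⟨l, hl, hl1, m, h3, h4⟩
      refine ⟨k * l, K.1.mul_mem hk hl, one_le_mul hk1 hl1, n + m, ?_, ?_⟩
      · calc x * y ≤ (k * a ^ n) * (l * a ^ m) := mul_le_mul' h1 h3
          _ = _ := by rw [pow_add]; exact mul_mul_mul_comm _ _ _ _
      · calc (x * y)⁻¹ = x⁻¹ * y⁻¹ := mul_inv _ _
          _ ≤ (k * a ^ n) * (l * a ^ m) := mul_le_mul' h2 h4
          _ = _ := by rw [pow_add]; exact mul_mul_mul_comm _ _ _ _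
     inv_mem' := by
      rintro x ⟨k, hk, hk1, n, h1, h2⟩
      exact ⟨k, hk, hk1, n, h2, by rwa [inv_inv]⟩ }, by
    have key : ∀ x y z : A, (∃ k ∈ K.1, 1 ≤ k ∧ ∃ n : ℕ, x ≤ k * a ^ n ∧ x⁻¹ ≤ k * a ^ n) →
        (∃ k ∈ K.1, 1 ≤ k ∧ ∃ n : ℕ, y ≤ k * a ^ n ∧ y⁻¹ ≤ k * a ^ n) →
        z ≤ x ⊔ y → x ⊓ y ≤ z →
        ∃ k ∈ K.1, 1 ≤ k ∧ ∃ n : ℕ, z ≤ k * a ^ n ∧ z⁻¹ ≤ k * a ^ n := by
      rintro x y z ⟨k, hk, hk1, n, h1, h2⟩ ⟨l, hl, hl1, m, h3, h4⟩ hz1 hz2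
      have hA : k * a ^ n ≤ k * l * a ^ (n + m) := by
        rw [pow_add]
        exact mul_le_mul' (le_mul_of_one_le_right' hl1)
          (le_mul_of_one_le_right' (one_le_pow_of_one_le' ha m))
      have hB : l * a ^ m ≤ k * l * a ^ (n + m) := by
        rw [pow_add]
        exact mul_le_mul' (le_mul_of_one_le_left' hk1)
          (le_mul_of_one_le_left' (one_le_pow_of_one_le' ha n))
      refine ⟨k * l, K.1.mul_mem hk hl, one_le_mul hk1 hl1, n + m, ?_, ?_⟩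
      · exact hz1.trans (sup_le (h1.trans hA) (h3.trans hB))
      · calc z⁻¹ ≤ (x ⊓ y)⁻¹ := inv_le_inv_iff.mpr hz2
          _ = x⁻¹ ⊔ y⁻¹ := inv_inf _ _
          _ ≤ _ := sup_le (h2.trans hA) (h4.trans hB)
    refine ⟨fun x hx y hy => ⟨?_, ?_⟩, fun x hx y hy z hxz hzy => ?_⟩
    · exact key x y _ hx hy (le_refl _) (inf_le_left.trans le_sup_left)
    · exact key x y _ hx hy (inf_le_left.trans le_sup_left) (le_refl _)
    · exact key x y _ hx hy (hzy.trans le_sup_right) (inf_le_left.trans hxz)⟩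

theorem mem_coverGen (K : CLS A) (a : A) (ha : 1 ≤ a) (x : A) :
    x ∈ (coverGen K a ha).1 ↔ ∃ k ∈ K.1, 1 ≤ k ∧ ∃ n : ℕ, x ≤ k * a ^ n ∧ x⁻¹ ≤ k * a ^ n :=
  Iff.rfl

theorem cover_gen {K L : CLS A} (hKL : K ⋖ L) {a : A} (haL : a ∈ L.1) (ha : 1 ≤ a)
    (haK : a ∉ K.1) {b : A} (hb : b ∈ L.1) : ∃ k ∈ K.1, ∃ n : ℕ, b ≤ k * a ^ n := by
  have h1 : K ≤ coverGen K a ha := by
    intro x hx
    refine ⟨(x ⊔ 1) * (x⁻¹ ⊔ 1), K.1.mul_mem (cover_sup_one K hx)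
      (cover_sup_one K (K.1.inv_mem hx)), one_le_mul le_sup_right le_sup_right, 0, ?_, ?_⟩
    · rw [pow_zero, mul_one]
      exact le_sup_left.trans (le_mul_of_one_le_right' le_sup_right)
    · rw [pow_zero, mul_one]
      exact le_sup_left.trans (le_mul_of_one_le_left' le_sup_right)
  have h2 : coverGen K a ha ≤ L := by
    rintro x ⟨k, hk, hk1, n, h3, h4⟩
    have h5 : k * a ^ n ∈ L.1 := L.1.mul_mem (hKL.1.le hk) (L.1.pow_mem haL n)
    exact L.2.2 _ (L.1.inv_mem h5) _ h5 _ (by rw [inv_le']; exact h4) h3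
  have h3 : a ∈ (coverGen K a ha).1 :=
    ⟨1, K.1.one_mem, le_refl _, 1, by simp, by
      rw [pow_one, one_mul]
      exact (inv_le_one'.mpr ha).trans ha⟩
  have h4 : K < coverGen K a ha := by
    refine lt_of_le_of_ne h1 ?_
    intro h
    exact haK (h ▸ h3)
  have h5 : coverGen K a ha = L := by
    rcases h2.lt_or_eq with h | h
    · exact absurd h (hKL.2 h4)
    · exact h
  have h6 : b ∈ (coverGen K a ha).1 := by rw [h5]; exact hb
  obtain ⟨k, hk, -, n, h7, -⟩ := h6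
  exact ⟨k, hk, n, h7⟩

theorem cover_total {K L : CLS A} (hKL : K ⋖ L) {x : A} (hx : x ∈ L.1) :
    x ⊔ 1 ∈ K.1 ∨ x⁻¹ ⊔ 1 ∈ K.1 := by
  by_contra hcon
  push Not at hcon
  obtain ⟨h1, h2⟩ := hcon
  obtain ⟨k, hk, n, h3⟩ := cover_gen hKL (cover_sup_one L hx) le_sup_right h1
    (cover_sup_one L (L.1.inv_mem hx))
  apply h2
  have hk1 := cover_sup_one K hk
  have h4 : x⁻¹ ⊔ 1 ≤ (k ⊔ 1) * (x ⊔ 1) ^ n :=
    h3.trans (mul_le_mul_left le_sup_left _)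
  have h5 : (x⁻¹ ⊔ 1) ⊓ (x ⊔ 1) = 1 := by
    have := oneLePart_inf_leOnePart_eq_one x
    rw [inf_comm] at this
    exact this
  have h6 : x⁻¹ ⊔ 1 ≤ k ⊔ 1 := by
    calc x⁻¹ ⊔ 1 = (x⁻¹ ⊔ 1) ⊓ ((k ⊔ 1) * (x ⊔ 1) ^ n) := (inf_eq_left.mpr h4).symm
      _ ≤ ((x⁻¹ ⊔ 1) ⊓ (k ⊔ 1)) * ((x⁻¹ ⊔ 1) ⊓ (x ⊔ 1) ^ n) :=
        cover_inf_mul_le le_sup_right le_sup_right (one_le_pow_of_one_le' le_sup_right n)
      _ = (x⁻¹ ⊔ 1) ⊓ (k ⊔ 1) := by
        rw [cover_inf_pow le_sup_right le_sup_right h5, mul_one]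
      _ ≤ k ⊔ 1 := inf_le_right
  exact K.2.2 1 K.1.one_mem _ hk1 _ le_sup_right h6

theorem cover_arch {K L : CLS A} (hKL : K ⋖ L) {x y : A} (hx : x ∈ L.1) (hy : y ∈ L.1)
    (hyK : y ⊔ 1 ∉ K.1) : ∃ n : ℕ, (x * (y ^ n)⁻¹) ⊔ 1 ∈ K.1 := by
  obtain ⟨k, hk, n, h3⟩ := cover_gen hKL (cover_sup_one L hy) le_sup_right hyK hx
  have h1 : y⁻¹ ⊔ 1 ∈ K.1 := (cover_total hKL hy).resolve_left hyK
  have h2 : y ⊔ 1 = y * (y⁻¹ ⊔ 1) := by
    rw [mul_sup, mul_inv_cancel, mul_one, sup_comm]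
  refine ⟨n, ?_⟩
  have h4 : x * (y ^ n)⁻¹ ≤ k * (y⁻¹ ⊔ 1) ^ n := by
    rw [mul_inv_le_iff_le_mul]
    calc x ≤ k * (y ⊔ 1) ^ n := h3
      _ = _ := by rw [h2, mul_pow, mul_assoc, mul_comm (y ^ n)]
  have h5 : k * (y⁻¹ ⊔ 1) ^ n ∈ K.1 := K.1.mul_mem hk (K.1.pow_mem h1 n)
  exact K.2.2 1 K.1.one_mem _ (cover_sup_one K h5) _ le_sup_right (sup_le_sup_right h4 _)

theorem cover_chi {K L : CLS A} (hKL : K ⋖ L) : ∃ χ : A → ℝ,
    (∀ x ∈ L.1, ∀ y ∈ L.1, χ (x * y) = χ x + χ y) ∧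
    ∀ x ∈ L.1, (x ⊔ 1 ∈ K.1 ↔ χ x ≤ 0) := by
  classical
  let N : Subgroup L.1 := K.1.subgroupOf L.1
  let Q := L.1 ⧸ N
  have hmk : ∀ x y : L.1, (QuotientGroup.mk x : Q) = QuotientGroup.mk y →
      (x : A)⁻¹ ⊔ 1 ∈ K.1 → (y : A)⁻¹ ⊔ 1 ∈ K.1 := by
    intro x y h hx
    have h1 : x⁻¹ * y ∈ N := QuotientGroup.eq.mp h
    have h2 : (x : A)⁻¹ * y ∈ K.1 := by
      simpa [N, Subgroup.mem_subgroupOf] using h1
    have h3 : ((x : A)⁻¹ * y)⁻¹ ⊔ 1 ∈ K.1 := cover_sup_one K (K.1.inv_mem h2)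
    have h4 := cover_np_mul K hx h3
    have h5 : (x : A)⁻¹ * ((x : A)⁻¹ * y)⁻¹ = (y : A)⁻¹ := by
      rw [mul_inv, inv_inv, ← mul_assoc, inv_mul_cancel, one_mul]
    rwa [h5] at h4
  let C : GroupCone Q :=
    { carrier := {q | ∃ x : L.1, (QuotientGroup.mk x : Q) = q ∧ (x : A)⁻¹ ⊔ 1 ∈ K.1}
      one_mem' := ⟨1, rfl, by simp⟩
      mul_mem' := by
        rintro _ _ ⟨x, rfl, hx⟩ ⟨y, rfl, hy⟩
        refine ⟨x * y, rfl, ?_⟩
        have := cover_np_mul K hx hy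
        rwa [← mul_inv] at this
      eq_one_of_mem_of_inv_mem' := by
        rintro _ ⟨x, rfl, hx⟩ ⟨y, hxy, hy⟩
        have h1 : (QuotientGroup.mk y : Q) = QuotientGroup.mk (x⁻¹) := hxy
        have h2 := hmk y x⁻¹ h1 hy
        have h3 : ((x⁻¹ : L.1) : A)⁻¹ = (x : A) := by simp
        rw [h3] at h2
        have h4 := cover_mem_of_np K h2 hx
        rw [QuotientGroup.eq_one_iff]
        exact Subgroup.mem_subgroupOf.mpr h4 }
  have hC : ∀ x : L.1, (QuotientGroup.mk x : Q) ∈ C ↔ (x : A)⁻¹ ⊔ 1 ∈ K.1 := by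
    intro x
    constructor
    · rintro ⟨y, hy, hy2⟩
      exact hmk y x hy hy2
    · intro h
      exact ⟨x, rfl, h⟩
  haveI : HasMemOrInvMem C := ⟨by
    intro q
    induction q using QuotientGroup.induction_on with
    | H x =>
      have h1 : (QuotientGroup.mk x : Q)⁻¹ = QuotientGroup.mk (x⁻¹) := rfl
      rw [h1, hC, hC]
      have h3 : ((x⁻¹ : L.1) : A)⁻¹ = (x : A) := by simp
      rw [h3]
      exact (cover_total hKL x.2).symm⟩
  letI : LinearOrder Q := LinearOrder.mkOfGroupCone C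
  haveI : IsOrderedMonoid Q := IsOrderedMonoid.mkOfCone C
  have hle : ∀ x y : L.1, (QuotientGroup.mk x : Q) ≤ QuotientGroup.mk y ↔
      (x : A) * (y : A)⁻¹ ⊔ 1 ∈ K.1 := by
    intro x y
    have h1 : (QuotientGroup.mk x : Q) ≤ QuotientGroup.mk y ↔
      (QuotientGroup.mk (y / x) : Q) ∈ C := Iff.rfl
    rw [h1, hC]
    have h2 : ((y / x : L.1) : A)⁻¹ = (x : A) * (y : A)⁻¹ := by
      rw [Subgroup.coe_div, inv_div, div_eq_mul_inv]
    rw [h2]
  haveI : MulArchimedean Q := ⟨by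
    intro q p hp
    induction q using QuotientGroup.induction_on with
    | H x =>
      induction p using QuotientGroup.induction_on with
      | H y =>
        have h1 : ¬ (QuotientGroup.mk y : Q) ≤ QuotientGroup.mk (1 : L.1) := not_le.mpr hp
        rw [hle] at h1
        have h2 : (y : A) ⊔ 1 ∉ K.1 := by simpa using h1
        obtain ⟨n, hn⟩ := cover_arch hKL x.2 y.2 h2
        refine ⟨n, ?_⟩
        have h3 : (QuotientGroup.mk x : Q) ≤ QuotientGroup.mk (y ^ n) := by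
          rw [hle]
          simpa using hn
        exact h3⟩
  obtain ⟨f, hf⟩ := Archimedean.exists_orderAddMonoidHom_real_injective (Additive Q)
  let g : L.1 → ℝ := fun x => f (Additive.ofMul (QuotientGroup.mk x : Q))
  have hg : ∀ x y : L.1, g (x * y) = g x + g y := by
    intro x y
    exact map_add f (Additive.ofMul (QuotientGroup.mk x : Q)) (Additive.ofMul (QuotientGroup.mk y : Q))
  have hg1 : g 1 = 0 := map_zero f
  have hg0 : ∀ x : L.1, (x : A) ⊔ 1 ∈ K.1 ↔ g x ≤ 0 := by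
    intro x
    have h1 : (QuotientGroup.mk x : Q) ≤ QuotientGroup.mk (1 : L.1) ↔ (x : A) ⊔ 1 ∈ K.1 := by
      rw [hle]; simp
    rw [← h1, ← hg1]
    have hmono : StrictMono f := f.monotone'.strictMono_of_injective hf
    constructor
    · intro h
      exact hmono.monotone h
    · intro h
      exact hmono.le_iff_le.mp h
  refine ⟨fun x => if h : x ∈ L.1 then g ⟨x, h⟩ else 0, ?_, ?_⟩
  · intro x hx y hy
    simp only [dif_pos hx, dif_pos hy, dif_pos (L.1.mul_mem hx hy)]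
    exact hg ⟨x, hx⟩ ⟨y, hy⟩
  · intro x hx
    simp only [dif_pos hx]
    exact hg0 ⟨x, hx⟩

end CoverAux

/-- A covering pair `K ⋖ L` of convex l-subgroups of an abelian l-group gives a real functional on `L`
with kernel `K` (Hölder); `val` computes it by cuts. -/
theorem val_spec {A : Type} [CommGroup A] [Lattice A] [MulLeftMono A] (K L : CLS A) (hKL : K ⋖ L)
    (u : A) (huL : u ∈ L.1) (hu1 : 1 ≤ u) (huK : u ∉ K.1) :
    (∀ x ∈ L.1, ∀ y ∈ L.1, val K u (x * y) = val K u x + val K u y) ∧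
    (∀ x ∈ L.1, (x ⊔ 1 ∈ K.1 ↔ val K u x ≤ 0)) ∧ val K u u = 1 := by
  obtain ⟨χ, hadd, hχ⟩ := cover_chi hKL
  have h1 : χ 1 = 0 := by
    have := hadd 1 L.1.one_mem 1 L.1.one_mem
    rw [mul_one] at this
    linarith
  have hinv : ∀ x ∈ L.1, χ x⁻¹ = - χ x := by
    intro x hx
    have := hadd x hx x⁻¹ (L.1.inv_mem hx)
    rw [mul_inv_cancel, h1] at this
    linarith
  have hpow : ∀ x ∈ L.1, ∀ n : ℕ, χ (x ^ n) = n * χ x := by
    intro x hx n
    induction n with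
    | zero => simp [h1]
    | succ n ih =>
      rw [pow_succ, hadd _ (L.1.pow_mem hx n) _ hx, ih]
      push_cast
      ring
  have hzpow : ∀ x ∈ L.1, ∀ n : ℤ, χ (x ^ n) = n * χ x := by
    intro x hx n
    cases n with
    | ofNat n => simpa using hpow x hx n
    | negSucc n =>
      rw [zpow_negSucc, hinv _ (L.1.pow_mem hx _), hpow x hx]
      push_cast
      ring
  have hu : 0 < χ u := by
    by_contra hcon
    push Not at hcon
    have h2 := (hχ u huL).mpr hcon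
    rw [sup_eq_left.mpr hu1] at h2
    exact huK h2
  have hval : ∀ x ∈ L.1, val K u x = χ x / χ u := by
    intro x hx
    have hset : ∀ (q : ℕ) (r : ℤ), 0 < q →
        ((x ^ (q : ℤ) * u ^ (-r)) ⊔ 1 ∈ K.1 ↔ χ x / χ u ≤ (r : ℝ) / q) := by
      intro q r hq
      have hq' : (0 : ℝ) < q := by exact_mod_cast hq
      rw [hχ _ (L.1.mul_mem (L.1.zpow_mem hx _) (L.1.zpow_mem huL _)),
        hadd _ (L.1.zpow_mem hx _) _ (L.1.zpow_mem huL _), hzpow x hx, hzpow u huL,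
        div_le_div_iff₀ hu hq']
      push_cast
      constructor <;> intro h <;> linarith
    unfold val
    apply csInf_eq_of_forall_ge_of_forall_gt_exists_lt
    · obtain ⟨r, hr⟩ := exists_int_gt (χ x / χ u)
      exact ⟨(r : ℝ) / (1 : ℕ), 1, r, one_pos, (hset 1 r one_pos).mpr (by
        rw [Nat.cast_one, div_one]; exact hr.le), rfl⟩
    · rintro t ⟨q, r, hq, h, rfl⟩
      exact (hset q r hq).mp h
    · intro w hw
      obtain ⟨ρ, hρ1, hρ2⟩ := exists_rat_btwn hw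
      refine ⟨(ρ.num : ℝ) / (ρ.den : ℕ), ⟨ρ.den, ρ.num, ρ.den_pos, ?_, rfl⟩, ?_⟩
      · rw [hset _ _ ρ.den_pos]
        have : (ρ : ℝ) = (ρ.num : ℝ) / (ρ.den : ℕ) := by
          rw [Rat.cast_def]
        rw [← this]
        exact hρ1.le
      · have : (ρ : ℝ) = (ρ.num : ℝ) / (ρ.den : ℕ) := by
          rw [Rat.cast_def]
        rw [← this]
        exact hρ2
  refine ⟨?_, ?_, ?_⟩
  · intro x hx y hy
    rw [hval _ (L.1.mul_mem hx hy), hval x hx, hval y hy, hadd x hx y hy, add_div]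
  · intro x hx
    rw [hval x hx, hχ x hx]
    constructor
    · intro h
      exact div_nonpos_of_nonpos_of_nonneg h hu.le
    · intro h
      by_contra hcon
      push Not at hcon
      exact absurd (div_pos hcon hu) (not_lt.mpr h)
  · rw [hval u huL, div_self hu.ne']

end Pool.H84.LG
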