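import Pool.Agent.H84.LG.Defs

set_option autoImplicit false

namespace Pool.H84.LG

variable {I : Type}

theorem Hh.n_mono {a b : Hh} (h : a ≤ b) : a.n ≤ b.n := by
  rcases h with h | ⟨h, _⟩
  · exact h.le
  · exact h.le

theorem Hh.f_mono {a b : Hh} (h : a ≤ b) (h0 : a.n = b.n) (x : ℤ) : a.f x ≤ b.f x := by
  rcases h with h | ⟨_, h⟩
  · exact absurd h (by rw [h0]; exact lt_irrefl _)
  · exact h x

/-- elements with exponent 0 at `ω` -/
def P (ω : I → Hh) : CLS (GG I) :=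
  ⟨{ carrier := {g | (g.1 ω).n = 0}
     mul_mem' := by
      intro a b ha hb
      simp only [Set.mem_setOf_eq] at *
      simp [ha, hb]
     one_mem' := by simp
     inv_mem' := by
      intro a ha
      simp only [Set.mem_setOf_eq] at *
      simp [ha] },
   by
    constructor
    · intro x hx y hy
      have hx' : (x.1 ω).n = 0 := hx
      have hy' : (y.1 ω).n = 0 := hy
      constructor
      · show ((x ⊔ y).1 ω).n = 0
        simp [hx', hy']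
      · show ((x ⊓ y).1 ω).n = 0
        simp [hx', hy']
    · intro x hx y hy z hxz hzy
      have hx' : (x.1 ω).n = 0 := hx
      have hy' : (y.1 ω).n = 0 := hy
      have h1 := Hh.n_mono (hxz ω)
      have h2 := Hh.n_mono (hzy ω)
      show (z.1 ω).n = 0
      omega⟩

theorem mem_P (ω : I → Hh) (g : GG I) : g ∈ (P ω).1 ↔ (g.1 ω).n = 0 := Iff.rfl

/-- elements with exponent 0 and value 0 at 0 at `ω` -/
def P0 (ω : I → Hh) : CLS (GG I) :=
  ⟨{ carrier := {g | (g.1 ω).n = 0 ∧ (g.1 ω).f 0 = 0}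
     mul_mem' := by
      rintro a b ⟨ha, ha'⟩ ⟨hb, hb'⟩
      exact ⟨by simp [ha, hb], by simp [ha', hb', hb]⟩
     one_mem' := by simp
     inv_mem' := by
      rintro a ⟨ha, ha'⟩
      exact ⟨by simp [ha], by simp [ha', ha]⟩ },
   by
    constructor
    · rintro x ⟨hx, hx'⟩ y ⟨hy, hy'⟩
      constructor
      · show ((x ⊔ y).1 ω).n = 0 ∧ ((x ⊔ y).1 ω).f 0 = 0
        rw [GG.sup_ap, Hh.sup_f_of_eq (by rw [hx, hy])]
        simp [hx, hy, hx', hy']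
      · show ((x ⊓ y).1 ω).n = 0 ∧ ((x ⊓ y).1 ω).f 0 = 0
        rw [GG.inf_ap, Hh.inf_f_of_eq (by rw [hx, hy])]
        simp [hx, hy, hx', hy']
    · rintro x ⟨hx, hx'⟩ y ⟨hy, hy'⟩ z hxz hzy
      have h1 := Hh.n_mono (hxz ω)
      have h2 := Hh.n_mono (hzy ω)
      have h3 : (z.1 ω).n = 0 := by omega
      have h4 := Hh.f_mono (hxz ω) (by omega) 0
      have h5 := Hh.f_mono (hzy ω) (by omega) 0
      exact ⟨h3, by omega⟩⟩

theorem mem_P0 (ω : I → Hh) (g : GG I) : g ∈ (P0 ω).1 ↔ (g.1 ω).n = 0 ∧ (g.1 ω).f 0 = 0 := Iff.rfl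

/-- the top convex l-subgroup -/
def topC (G : Type) [Group G] [Lattice G] : CLS G := ⟨⊤, by simp⟩

/-- generic covering lemma -/
theorem cover_of {G : Type} [Group G] [Lattice G] [MulLeftMono G] [MulRightMono G] (K L : CLS G)
    (hKL : ∀ x ∈ K.1, x ∈ L.1) (ν : G → ℤ) (hν : ∀ x ∈ L.1, ∀ y ∈ L.1, ν (x * y) = ν x + ν y)
    (hsup : ∀ x ∈ L.1, ν (x ⊔ 1) = max (ν x) 0) (hK : ∀ x ∈ L.1, (x ∈ K.1 ↔ ν x = 0))
    (g0 : G) (hg0 : g0 ∈ L.1) (hg0' : ν g0 ≠ 0) : K ⋖ L := by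
  have hle : K ≤ L := fun x hx => hKL x hx
  refine ⟨lt_of_le_not_ge hle (fun h => hg0' ((hK g0 hg0).mp (h hg0))), ?_⟩
  intro M hKM hML
  have hML' : ∀ x ∈ M.1, x ∈ L.1 := fun x hx => hML.le hx
  have hKM' : ∀ x ∈ K.1, x ∈ M.1 := fun x hx => hKM.le hx
  apply not_le_of_gt hML
  obtain ⟨m, hm, hmK⟩ : ∃ m ∈ M.1, m ∉ K.1 := by
    by_contra hcon
    push Not at hcon
    exact not_le_of_gt hKM hcon
  have hν1 : ν 1 = 0 := (hK 1 (one_mem _)).mp (one_mem _)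
  have hνinv : ∀ x ∈ L.1, ν x⁻¹ = - ν x := by
    intro x hx
    have := hν x hx x⁻¹ (inv_mem hx)
    rw [mul_inv_cancel, hν1] at this
    omega
  -- a positive element
  obtain ⟨m, hm, hmpos⟩ : ∃ m ∈ M.1, 0 < ν m := by
    have h1 : ν m ≠ 0 := fun h => hmK ((hK m (hML' m hm)).mpr h)
    rcases lt_or_gt_of_ne h1 with h2 | h2
    · exact ⟨m⁻¹, inv_mem hm, by rw [hνinv m (hML' m hm)]; omega⟩
    · exact ⟨m, hm, h2⟩
  have hνpow : ∀ n : ℕ, ν (m ^ n) = n * ν m := by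
    intro n
    induction n with
    | zero => simp [hν1]
    | succ n ih =>
      rw [pow_succ, hν _ (pow_mem (hML' m hm) n) _ (hML' m hm), ih]; push_cast; ring
  -- upper bounds
  have key : ∀ g ∈ L.1, ∃ c ∈ M.1, g ≤ c := by
    intro g hg
    set n : ℕ := (ν g).toNat with hn
    have h1 : ν g ≤ n * ν m := by
      have : ν g ≤ n := Int.self_le_toNat _
      nlinarith
    have hy : g * (m ^ n)⁻¹ ∈ L.1 := mul_mem hg (inv_mem (pow_mem (hML' m hm) n))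
    have h2 : ν (g * (m ^ n)⁻¹) ≤ 0 := by
      rw [hν g hg _ (inv_mem (pow_mem (hML' m hm) n)), hνinv _ (pow_mem (hML' m hm) n), hνpow]
      omega
    have h3 : (g * (m ^ n)⁻¹) ⊔ 1 ∈ K.1 := by
      rw [hK _ (L.2.1 _ hy _ (one_mem _)).1, hsup _ hy, max_eq_right h2]
    refine ⟨((g * (m ^ n)⁻¹) ⊔ 1) * m ^ n, mul_mem (hKM' _ h3) (pow_mem hm n), ?_⟩
    calc g = (g * (m ^ n)⁻¹) * m ^ n := by group
      _ ≤ _ := mul_le_mul_left le_sup_left _
  intro g hg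
  obtain ⟨c, hc, hc'⟩ := key g hg
  obtain ⟨d, hd, hd'⟩ := key g⁻¹ (inv_mem hg)
  exact M.2.2 d⁻¹ (inv_mem hd) c hc g (inv_le_of_inv_le' hd') hc'

theorem P_cov (ω : I → Hh) (g0 : GG I) (hg0 : (g0.1 ω).n ≠ 0) : P ω ⋖ topC (GG I) := by
  refine cover_of (P ω) (topC (GG I)) (fun _ _ => Subgroup.mem_top _) (fun g => (g.1 ω).n) ?_ ?_ ?_ g0
    (Subgroup.mem_top _) hg0
  · intro x _ y _; simp
  · intro x _; simp
  · intro x _; exact mem_P ω x

theorem P0_cov (ω : I → Hh) : P0 ω ⋖ P ω := by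
  refine cover_of (P0 ω) (P ω) (fun x hx => hx.1) (fun g => (g.1 ω).f 0) ?_ ?_ ?_ GG.z
    (by simp [mem_P]) (by simp)
  · intro x hx y hy
    rw [mem_P] at hx hy
    simp only [GG.mul_ap, Hh.mul_f, hy, add_zero]; ring
  · intro x hx
    rw [mem_P] at hx
    simp only [GG.sup_ap, GG.one_ap]
    rw [Hh.sup_f_of_eq (by simp [hx])]; simp
  · intro x hx
    rw [mem_P] at hx
    rw [mem_P0]
    exact ⟨fun h => h.2, fun h => ⟨hx, h⟩⟩

end Pool.H84.LG
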