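import Pool.Agent.H84.LG.Defs

set_option autoImplicit false

namespace Pool.H84.LG

section transfer_aux

variable {A : Type} [Group A] [Lattice A]

/-- the convex l-subgroup generated by one element -/
def transfer_gen (b : A) : CLS A :=
  ⟨{ carrier := {x | ∀ K : CLS A, b ∈ K.1 → x ∈ K.1}
     mul_mem' := fun hx hy K hK => K.1.mul_mem (hx K hK) (hy K hK)
     one_mem' := fun K _ => K.1.one_mem
     inv_mem' := fun hx K hK => K.1.inv_mem (hx K hK) },
   fun _ hx _ hy => ⟨fun K hK => (K.2.1 _ (hx K hK) _ (hy K hK)).1,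
      fun K hK => (K.2.1 _ (hx K hK) _ (hy K hK)).2⟩,
   fun _ hx _ hy _ h1 h2 K hK => K.2.2 _ (hx K hK) _ (hy K hK) _ h1 h2⟩

theorem transfer_mem_gen (b : A) : b ∈ (transfer_gen b).1 := fun _ h => h

theorem transfer_gen_le {b : A} {K : CLS A} : transfer_gen b ≤ K ↔ b ∈ K.1 :=
  ⟨fun h => h (transfer_mem_gen b), fun h _ hx => hx K h⟩

variable [MulLeftMono A] [MulRightMono A]

theorem transfer_abs_mem {K : CLS A} {x : A} : mabs x ∈ K.1 ↔ x ∈ K.1 := by
  constructor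
  · intro h
    exact K.2.2 _ (K.1.inv_mem h) _ h _ (inv_le'.1 (inv_le_mabs x)) (le_mabs_self x)
  · intro h
    exact (K.2.1 _ h _ (K.1.inv_mem h)).1

theorem transfer_dir (b c : A) :
    transfer_gen b ≤ transfer_gen (mabs b * mabs c) ∧
      transfer_gen c ≤ transfer_gen (mabs b * mabs c) := by
  rw [transfer_gen_le, transfer_gen_le, ← transfer_abs_mem, ← transfer_abs_mem (x := c)]
  have h := transfer_mem_gen (mabs b * mabs c)
  have h1 := (transfer_gen (mabs b * mabs c)).1.one_mem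
  refine ⟨(transfer_gen (mabs b * mabs c)).2.2 _ h1 _ h _ (one_le_mabs b) ?_,
    (transfer_gen (mabs b * mabs c)).2.2 _ h1 _ h _ (one_le_mabs c) ?_⟩
  · exact le_mul_of_one_le_right' (one_le_mabs c)
  · exact le_mul_of_one_le_left' (one_le_mabs b)

end transfer_aux

/-- An isomorphism of the lattices of convex l-subgroups matches the principal ones. -/
theorem transfer {G A : Type} [Group G] [Lattice G] [MulLeftMono G] [MulRightMono G]
    [Group A] [Lattice A] [MulLeftMono A] [MulRightMono A] (Φ : CLS G ≃o CLS A) (g : G) :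
    ∃ b : A, 1 ≤ b ∧ ∀ P : CLS G, g ∈ P.1 ↔ b ∈ (Φ P).1 := by
  set L : CLS A := Φ (transfer_gen g) with hL
  have hd : ∀ b ∈ L.1, ∀ c ∈ L.1, ∃ d ∈ L.1,
      Φ.symm (transfer_gen b) ≤ Φ.symm (transfer_gen d) ∧
      Φ.symm (transfer_gen c) ≤ Φ.symm (transfer_gen d) := by
    intro b hb c hc
    have := transfer_dir b c
    exact ⟨mabs b * mabs c, L.1.mul_mem (transfer_abs_mem.2 hb) (transfer_abs_mem.2 hc),
      Φ.symm.monotone this.1, Φ.symm.monotone this.2⟩
  have hpair : ∀ x y : G, (∃ b ∈ L.1, x ∈ (Φ.symm (transfer_gen b)).1) →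
      (∃ b ∈ L.1, y ∈ (Φ.symm (transfer_gen b)).1) →
      ∃ b ∈ L.1, x ∈ (Φ.symm (transfer_gen b)).1 ∧ y ∈ (Φ.symm (transfer_gen b)).1 := by
    rintro x y ⟨b, hb, hx⟩ ⟨c, hc, hy⟩
    obtain ⟨d, hdL, h1, h2⟩ := hd b hb c hc
    exact ⟨d, hdL, h1 hx, h2 hy⟩
  let U : CLS G :=
    ⟨{ carrier := {x | ∃ b ∈ L.1, x ∈ (Φ.symm (transfer_gen b)).1}
       mul_mem' := by
         intro x y hx hy
         obtain ⟨b, hb, h1, h2⟩ := hpair x y hx hy
         exact ⟨b, hb, (Φ.symm (transfer_gen b)).1.mul_mem h1 h2⟩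
       one_mem' := ⟨1, L.1.one_mem, (Φ.symm (transfer_gen 1)).1.one_mem⟩
       inv_mem' := by
         rintro x ⟨b, hb, h1⟩
         exact ⟨b, hb, (Φ.symm (transfer_gen b)).1.inv_mem h1⟩ },
     by
       intro x hx y hy
       obtain ⟨b, hb, h1, h2⟩ := hpair x y hx hy
       have := (Φ.symm (transfer_gen b)).2.1 x h1 y h2
       exact ⟨⟨b, hb, this.1⟩, ⟨b, hb, this.2⟩⟩,
     by
       intro x hx y hy w hxw hwy
       obtain ⟨b, hb, h1, h2⟩ := hpair x y hx hy
       exact ⟨b, hb, (Φ.symm (transfer_gen b)).2.2 x h1 y h2 w hxw hwy⟩⟩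
  have hLU : L ≤ Φ U := by
    intro b hb
    have h1 : Φ.symm (transfer_gen b) ≤ U := fun x hx => ⟨b, hb, hx⟩
    have h2 : transfer_gen b ≤ Φ U := by
      have := Φ.monotone h1
      rwa [Φ.apply_symm_apply] at this
    exact transfer_gen_le.1 h2
  have hgU : transfer_gen g ≤ U := by
    rw [hL] at hLU
    exact Φ.le_iff_le.1 hLU
  obtain ⟨b, hbL, hgb⟩ : ∃ b ∈ L.1, g ∈ (Φ.symm (transfer_gen b)).1 := transfer_gen_le.1 hgU
  have h1 : L ≤ transfer_gen b := by
    have h2 : transfer_gen g ≤ Φ.symm (transfer_gen b) := transfer_gen_le.2 hgb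
    have := Φ.monotone h2
    rwa [Φ.apply_symm_apply] at this
  have h2 : transfer_gen b ≤ L := transfer_gen_le.2 hbL
  have h3 : L = transfer_gen b := le_antisymm h1 h2
  refine ⟨mabs b, one_le_mabs b, fun P => ?_⟩
  rw [transfer_abs_mem, ← transfer_gen_le, ← transfer_gen_le, ← h3, hL, Φ.le_iff_le]

end Pool.H84.LG
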