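import Pool.Agent.H84.LG.Ind
import Pool.Agent.H84.LG.Prime
import Pool.Agent.H84.LG.Transfer
import Pool.Agent.H84.LG.Cover

set_option autoImplicit false

namespace Pool.H84.LG

/-- data extracted from an isomorphism `C(G) ≃o C(A)` -/
structure Dt (I A : Type) [CommGroup A] [Lattice A] where
  Φ : CLS (GG I) → CLS A
  cov : ∀ {K L : CLS (GG I)}, K ⋖ L → Φ K ⋖ Φ L
  b : I → A
  hb1 : ∀ i, 1 ≤ b i
  hb : ∀ i K, GG.gen i ∈ K.1 ↔ b i ∈ (Φ K).1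
  bz : A
  hbz1 : 1 ≤ bz
  hbz : ∀ K, GG.z ∈ K.1 ↔ bz ∈ (Φ K).1
  gy : A → GG I
  hgy1 : ∀ x, 1 ≤ gy x
  hgy : ∀ x K, gy x ∈ K.1 ↔ x ∈ (Φ K).1

theorem exists_Dt {I A : Type} [CommGroup A] [Lattice A] [MulLeftMono A] (Φ : CLS (GG I) ≃o CLS A) :
    Nonempty (Dt I A) := by
  have h1 := fun g => transfer Φ g
  choose b hb1 hb using h1
  have h2 := fun x => transfer Φ.symm x
  choose g hg1 hg using h2
  exact ⟨{
    Φ := Φ
    cov := fun {K L} h => (apply_covBy_apply_iff Φ).mpr h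
    b := fun i => b (GG.gen i)
    hb1 := fun i => hb1 _
    hb := fun i K => hb _ K
    bz := b GG.z
    hbz1 := hb1 _
    hbz := fun K => hb _ K
    gy := g
    hgy1 := hg1
    hgy := fun x K => by
      have := hg x (Φ K)
      rw [OrderIso.symm_apply_apply] at this
      exact this.symm }⟩

namespace Dt
variable {I A : Type} [CommGroup A] [Lattice A] (D : Dt I A)

/-- `Φ (P ω)` -/
def Q (ω : I → Hh) : CLS A := D.Φ (P ω)
/-- `Φ (P0 ω)` -/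
def Q0 (ω : I → Hh) : CLS A := D.Φ (P0 ω)

theorem mem_Q (ω : I → Hh) (x : A) : x ∈ (D.Q ω).1 ↔ ((D.gy x).1 ω).n = 0 := by
  rw [Q, ← D.hgy, mem_P]

theorem mem_Q0 (ω : I → Hh) (x : A) :
    x ∈ (D.Q0 ω).1 ↔ ((D.gy x).1 ω).n = 0 ∧ ((D.gy x).1 ω).f 0 = 0 := by
  rw [Q0, ← D.hgy, mem_P0]

theorem b_mem_Q (ω : I → Hh) (i : I) : D.b i ∈ (D.Q ω).1 ↔ (ω i).n ≤ 0 := by
  rw [Q, ← D.hb, mem_P]; simp

theorem bz_mem_Q (ω : I → Hh) : D.bz ∈ (D.Q ω).1 := by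
  rw [Q, ← D.hbz, mem_P]; simp

theorem bz_not_mem_Q0 (ω : I → Hh) : D.bz ∉ (D.Q0 ω).1 := by
  rw [Q0, ← D.hbz, mem_P0]; simp

theorem mem_top (x : A) : x ∈ (D.Φ (topC (GG I))).1 := by
  rw [← D.hgy]; exact Subgroup.mem_top _

/-- exponents determine `Q` up to scaling -/
theorem Q_homog (N : ℕ) (hN : 0 < N) (ω ω' : I → Hh) (h : ∀ i, (ω' i).n = N * (ω i).n) :
    D.Q ω' = D.Q ω := by
  have : P ω' = P ω := by
    apply Subtype.ext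
    ext g
    rw [mem_P, mem_P, homog N ω ω' h g]
    simp [hN.ne']
  rw [Q, Q, this]

theorem Q0_conj (φ : ℤ → ℤ) (ω ω' : I → Hh)
    (h : ∀ i, (ω' i).n = (ω i).n ∧ ∀ x, (ω' i).f x = (ω i).f x + φ x - φ (x + (ω i).n)) :
    D.Q0 ω' = D.Q0 ω := by
  have : P0 ω' = P0 ω := by
    apply Subtype.ext
    ext g
    obtain ⟨h1, h2⟩ := conj φ ω ω' h g
    rw [mem_P0, mem_P0, h1, h2 0]
    constructor
    · rintro ⟨h3, h4⟩
      refine ⟨h3, ?_⟩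
      rw [h3] at h4
      simpa using h4
    · rintro ⟨h3, h4⟩
      refine ⟨h3, ?_⟩
      rw [h3, h4]
      simp
  rw [Q0, Q0, this]

theorem Q0_restr (ω ω' : I → Hh)
    (h : ∀ i, (ω i).n = 2 * (ω' i).n ∧ ∀ x, (ω' i).f x = (ω i).f (2 * x)) :
    D.Q0 ω' = D.Q0 ω := by
  have : P0 ω' = P0 ω := by
    apply Subtype.ext
    ext g
    obtain ⟨h1, h2⟩ := restr ω ω' h g
    rw [mem_P0, mem_P0, h1, h2 0]
    simp
  rw [Q0, Q0, this]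

section
variable [MulLeftMono A]

theorem top_spec (ω : I → Hh) (k : I) (hk : 0 < (ω k).n) :
    (∀ x y, val (D.Q ω) (D.b k) (x * y) = val (D.Q ω) (D.b k) x + val (D.Q ω) (D.b k) y) ∧
    (∀ x, (x ⊔ 1 ∈ (D.Q ω).1 ↔ val (D.Q ω) (D.b k) x ≤ 0)) ∧ val (D.Q ω) (D.b k) (D.b k) = 1 := by
  have h1 : P ω ⋖ topC (GG I) := P_cov ω (GG.gen k) (by simp; omega)
  have h2 := val_spec (D.Q ω) (D.Φ (topC (GG I))) (D.cov h1) (D.b k) (D.mem_top _) (D.hb1 k)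
    (by rw [b_mem_Q]; omega)
  exact ⟨fun x y => h2.1 x (D.mem_top _) y (D.mem_top _), fun x => h2.2.1 x (D.mem_top _), h2.2.2⟩

theorem low_spec (ω : I → Hh) :
    (∀ x ∈ (D.Q ω).1, ∀ y ∈ (D.Q ω).1,
      val (D.Q0 ω) D.bz (x * y) = val (D.Q0 ω) D.bz x + val (D.Q0 ω) D.bz y) ∧
    (∀ x ∈ (D.Q ω).1, (x ⊔ 1 ∈ (D.Q0 ω).1 ↔ val (D.Q0 ω) D.bz x ≤ 0)) ∧
    val (D.Q0 ω) D.bz D.bz = 1 :=
  val_spec (D.Q0 ω) (D.Q ω) (D.cov (P0_cov ω)) D.bz (D.bz_mem_Q ω) D.hbz1 (D.bz_not_mem_Q0 ω)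

end

/-- dependence set -/
noncomputable def supp {I : Type} (g : GG I) : Finset I := Classical.choose (dep g)

theorem supp_spec {I : Type} (g : GG I) (ω ω' : I → Hh) (h : ∀ i ∈ supp g, ω i = ω' i) : g.1 ω = g.1 ω' :=
  Classical.choose_spec (dep g) ω ω' h

/-- countable dependence set of a pair -/
noncomputable def Dp (i j : I) : Set I :=
  ⋃ (p : ℤ × ℤ × ℤ), (supp (D.gy ((D.b i ^ p.1 * D.b j ^ p.2.1 * D.bz ^ p.2.2) ⊔ 1)) : Set I)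

theorem Dp_countable (i j : I) : (D.Dp i j).Countable :=
  Set.countable_iUnion fun _ => Finset.countable_toSet _

theorem indep {i j l : I} (hl : l ∉ D.Dp i j) (ω ω' : I → Hh) (h : ∀ m, m ≠ l → ω m = ω' m) (p q r : ℤ) :
    ((D.b i ^ p * D.b j ^ q * D.bz ^ r) ⊔ 1 ∈ (D.Q ω).1 ↔
      (D.b i ^ p * D.b j ^ q * D.bz ^ r) ⊔ 1 ∈ (D.Q ω').1) ∧
    ((D.b i ^ p * D.b j ^ q * D.bz ^ r) ⊔ 1 ∈ (D.Q0 ω).1 ↔
      (D.b i ^ p * D.b j ^ q * D.bz ^ r) ⊔ 1 ∈ (D.Q0 ω').1) := by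
  have h1 : (D.gy ((D.b i ^ p * D.b j ^ q * D.bz ^ r) ⊔ 1)).1 ω =
      (D.gy ((D.b i ^ p * D.b j ^ q * D.bz ^ r) ⊔ 1)).1 ω' := by
    apply supp_spec
    intro m hm
    apply h
    rintro rfl
    exact hl (Set.mem_iUnion.mpr ⟨(p, q, r), hm⟩)
  rw [mem_Q, mem_Q, mem_Q0, mem_Q0, h1]
  exact ⟨Iff.rfl, Iff.rfl⟩

end Dt

/-- additive functionals on a subgroup: powers -/
theorem fun_zpow {A : Type} [CommGroup A] (L : Subgroup A) (V : A → ℝ)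
    (hV : ∀ x ∈ L, ∀ y ∈ L, V (x * y) = V x + V y) :
    ∀ x ∈ L, ∀ n : ℤ, V (x ^ n) = n * V x := by
  have h1 : V 1 = 0 := by
    have := hV 1 (one_mem _) 1 (one_mem _)
    rw [mul_one] at this; linarith
  have hinv : ∀ x ∈ L, V x⁻¹ = - V x := by
    intro x hx
    have := hV x hx x⁻¹ (inv_mem hx)
    rw [mul_inv_cancel, h1] at this
    linarith
  have hnat : ∀ x ∈ L, ∀ n : ℕ, V (x ^ n) = n * V x := by
    intro x hx n
    induction n with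
    | zero => simp [h1]
    | succ n ih => rw [pow_succ, hV _ (pow_mem hx n) _ hx, ih]; push_cast; ring
  intro x hx n
  obtain ⟨m, rfl | rfl⟩ := n.eq_nat_or_neg
  · rw [zpow_natCast, hnat x hx]; push_cast; ring
  · rw [zpow_neg, zpow_natCast, hinv _ (pow_mem hx m), hnat x hx]; push_cast; ring

/-- membership through the positive and negative parts -/
theorem mem_iff_parts {A : Type} [CommGroup A] [Lattice A] [MulLeftMono A] (K : CLS A) (x : A) :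
    x ∈ K.1 ↔ x ⊔ 1 ∈ K.1 ∧ x⁻¹ ⊔ 1 ∈ K.1 := by
  constructor
  · intro h
    exact ⟨(K.2.1 x h 1 (one_mem _)).1, (K.2.1 _ (inv_mem h) 1 (one_mem _)).1⟩
  · rintro ⟨h1, h2⟩
    refine K.2.2 (x⁻¹ ⊔ 1)⁻¹ (inv_mem h2) (x ⊔ 1) h1 x ?_ le_sup_left
    exact inv_le_of_inv_le' le_sup_left

end Pool.H84.LG
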