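import Mathlib

set_option autoImplicit false

namespace Pool.H84.LG

/-- Convex l-subgroups (the same expression as in the frozen statement). -/
abbrev CLS (G : Type) [Group G] [Lattice G] : Type :=
  {H : Subgroup G //
      (∀ x ∈ H, ∀ y ∈ H, x ⊔ y ∈ H ∧ x ⊓ y ∈ H) ∧
      ∀ x ∈ H, ∀ y ∈ H, ∀ z : G, x ≤ z → z ≤ y → z ∈ H}

/-- The value of `x` relative to the unit `u` modulo the convex l-subgroup `K`, defined by rational cuts:
`inf {r / q : q > 0, (x ^ q * u ^ (-r)) ⊔ 1 ∈ K}`. -/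
noncomputable def val {A : Type} [CommGroup A] [Lattice A] (K : CLS A) (u x : A) : ℝ :=
  sInf {t : ℝ | ∃ (q : ℕ) (r : ℤ), 0 < q ∧ (x ^ (q : ℤ) * u ^ (-r)) ⊔ 1 ∈ K.1 ∧ t = (r : ℝ) / (q : ℝ)}

/-- The wreath product `ℤ Wr ℤ`: the pair `(f, n)` stands for `(x, y) ↦ (x + n, y + f x)`. -/
@[ext] structure Hh : Type where
  f : ℤ → ℤ
  n : ℤ

namespace Hh

instance : Mul Hh := ⟨fun a b => ⟨fun x => b.f x + a.f (x + b.n), a.n + b.n⟩⟩
instance : One Hh := ⟨⟨fun _ => 0, 0⟩⟩
instance : Inv Hh := ⟨fun a => ⟨fun x => - a.f (x - a.n), - a.n⟩⟩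

@[simp] theorem mul_n (a b : Hh) : (a * b).n = a.n + b.n := rfl
@[simp] theorem mul_f (a b : Hh) (x : ℤ) : (a * b).f x = b.f x + a.f (x + b.n) := rfl
@[simp] theorem one_n : (1 : Hh).n = 0 := rfl
@[simp] theorem one_f (x : ℤ) : (1 : Hh).f x = 0 := rfl
@[simp] theorem inv_n (a : Hh) : (a⁻¹).n = - a.n := rfl
@[simp] theorem inv_f (a : Hh) (x : ℤ) : (a⁻¹).f x = - a.f (x - a.n) := rfl

instance : Group Hh :=
  Group.ofLeftAxioms
    (by
      intro a b c
      ext x
      · simp only [mul_f, mul_n]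
        have : x + (b.n + c.n) = x + c.n + b.n := by ring
        rw [this]; ring
      · simp [add_assoc])
    (by
      intro a
      ext x <;> simp)
    (by
      intro a
      ext x <;> simp)

@[simp] theorem div_n (a b : Hh) : (a / b).n = a.n - b.n := by
  rw [div_eq_mul_inv]; simp [sub_eq_add_neg]

theorem pow_n (a : Hh) (m : ℕ) : (a ^ m).n = m * a.n := by
  induction m with
  | zero => simp
  | succ m ih => rw [pow_succ]; simp [ih]; ring

/-- order: larger exponent first, then pointwise. -/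
instance : LE Hh := ⟨fun a b => a.n < b.n ∨ (a.n = b.n ∧ ∀ x, a.f x ≤ b.f x)⟩

theorem le_def (a b : Hh) : a ≤ b ↔ a.n < b.n ∨ (a.n = b.n ∧ ∀ x, a.f x ≤ b.f x) := Iff.rfl

instance : PartialOrder Hh where
  le_refl a := Or.inr ⟨rfl, fun _ => le_refl _⟩
  le_trans a b c h1 h2 := by
    rcases h1 with h1 | ⟨h1, h1'⟩ <;> rcases h2 with h2 | ⟨h2, h2'⟩
    · exact Or.inl (h1.trans h2)
    · exact Or.inl (h2 ▸ h1)
    · exact Or.inl (h1 ▸ h2)
    · exact Or.inr ⟨h1.trans h2, fun x => (h1' x).trans (h2' x)⟩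
  le_antisymm a b h1 h2 := by
    rcases h1 with h1 | ⟨h1, h1'⟩ <;> rcases h2 with h2 | ⟨h2, h2'⟩
    · exact absurd (h1.trans h2) (lt_irrefl _)
    · exact absurd h1 (by rw [h2]; exact lt_irrefl _)
    · exact absurd h2 (by rw [h1]; exact lt_irrefl _)
    · ext x
      · exact le_antisymm (h1' x) (h2' x)
      · exact h1

/-- supremum -/
def sup (a b : Hh) : Hh :=
  if a.n < b.n then b else if b.n < a.n then a else ⟨fun x => max (a.f x) (b.f x), a.n⟩
/-- infimum -/
def inf (a b : Hh) : Hh :=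
  if a.n < b.n then a else if b.n < a.n then b else ⟨fun x => min (a.f x) (b.f x), a.n⟩

instance : Lattice Hh where
  sup := sup
  inf := inf
  le_sup_left a b := by
    show a ≤ sup a b
    unfold sup
    split_ifs with h1 h2
    · exact Or.inl h1
    · exact le_refl _
    · exact Or.inr ⟨rfl, fun x => le_max_left _ _⟩
  le_sup_right a b := by
    show b ≤ sup a b
    unfold sup
    split_ifs with h1 h2
    · exact le_refl _
    · exact Or.inl h2
    · exact Or.inr ⟨le_antisymm (not_lt.mp h1) (not_lt.mp h2), fun x => le_max_right _ _⟩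
  sup_le a b c h1 h2 := by
    show sup a b ≤ c
    unfold sup
    split_ifs with h3 h4
    · exact h2
    · exact h1
    · have h5 : a.n = b.n := le_antisymm (not_lt.mp h4) (not_lt.mp h3)
      rcases h1 with h1 | ⟨h1, h1'⟩
      · exact Or.inl h1
      · rcases h2 with h2 | ⟨h2, h2'⟩
        · exact Or.inl (h5 ▸ h2)
        · exact Or.inr ⟨h1, fun x => max_le (h1' x) (h2' x)⟩
  inf_le_left a b := by
    show inf a b ≤ a
    unfold inf
    split_ifs with h1 h2
    · exact le_refl _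
    · exact Or.inl h2
    · exact Or.inr ⟨rfl, fun x => min_le_left _ _⟩
  inf_le_right a b := by
    show inf a b ≤ b
    unfold inf
    split_ifs with h1 h2
    · exact Or.inl h1
    · exact le_refl _
    · exact Or.inr ⟨le_antisymm (not_lt.mp h2) (not_lt.mp h1), fun x => min_le_right _ _⟩
  le_inf a b c h1 h2 := by
    show a ≤ inf b c
    unfold inf
    split_ifs with h3 h4
    · exact h1
    · exact h2
    · have h5 : b.n = c.n := le_antisymm (not_lt.mp h4) (not_lt.mp h3)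
      rcases h1 with h1 | ⟨h1, h1'⟩
      · exact Or.inl h1
      · rcases h2 with h2 | ⟨h2, h2'⟩
        · exact Or.inl (h5 ▸ h2)
        · exact Or.inr ⟨h1, fun x => le_min (h1' x) (h2' x)⟩

theorem sup_def (a b : Hh) : a ⊔ b =
    if a.n < b.n then b else if b.n < a.n then a else ⟨fun x => max (a.f x) (b.f x), a.n⟩ := rfl

theorem inf_def (a b : Hh) : a ⊓ b =
    if a.n < b.n then a else if b.n < a.n then b else ⟨fun x => min (a.f x) (b.f x), a.n⟩ := rfl

@[simp] theorem sup_n (a b : Hh) : (a ⊔ b).n = max a.n b.n := by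
  rw [sup_def]
  split_ifs with h1 h2
  · exact (max_eq_right h1.le).symm
  · exact (max_eq_left h2.le).symm
  · exact (max_eq_left (not_lt.mp h1)).symm

@[simp] theorem inf_n (a b : Hh) : (a ⊓ b).n = min a.n b.n := by
  rw [inf_def]
  split_ifs with h1 h2
  · exact (min_eq_left h1.le).symm
  · exact (min_eq_right h2.le).symm
  · exact (min_eq_left (not_lt.mp h2)).symm

theorem sup_f_of_eq {a b : Hh} (h : a.n = b.n) (x : ℤ) : (a ⊔ b).f x = max (a.f x) (b.f x) := by
  rw [sup_def, if_neg (by rw [h]; exact lt_irrefl _), if_neg (by rw [h]; exact lt_irrefl _)]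

theorem inf_f_of_eq {a b : Hh} (h : a.n = b.n) (x : ℤ) : (a ⊓ b).f x = min (a.f x) (b.f x) := by
  rw [inf_def, if_neg (by rw [h]; exact lt_irrefl _), if_neg (by rw [h]; exact lt_irrefl _)]

theorem sup_of_lt {a b : Hh} (h : a.n < b.n) : a ⊔ b = b := by
  rw [sup_def, if_pos h]

theorem sup_of_gt {a b : Hh} (h : b.n < a.n) : a ⊔ b = a := by
  rw [sup_def, if_neg (not_lt.mpr h.le), if_pos h]

instance : MulLeftMono Hh := ⟨by
  intro c a b h
  rcases h with h | ⟨h, h'⟩
  · refine Or.inl ?_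
    simp only [mul_n]; omega
  · refine Or.inr ⟨?_, fun x => ?_⟩
    · simp only [mul_n]; omega
    · simp only [mul_f]; rw [h]; have := h' x; omega⟩

instance : MulRightMono Hh := ⟨by
  intro c a b h
  rcases h with h | ⟨h, h'⟩
  · refine Or.inl ?_
    simp only [Function.swap, mul_n]; omega
  · refine Or.inr ⟨?_, fun x => ?_⟩
    · simp only [Function.swap, mul_n]; omega
    · simp only [Function.swap, mul_f]; have := h' (x + c.n); omega⟩

theorem normal_valued (a b : Hh) (ha : 1 ≤ a) (hb : 1 ≤ b) : a * b ≤ b ^ 2 * a ^ 2 := by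
  have ha0 : 0 ≤ a.n := by
    rcases ha with h | ⟨h, _⟩
    · simpa using h.le
    · simpa using h.le
  have hb0 : 0 ≤ b.n := by
    rcases hb with h | ⟨h, _⟩
    · simpa using h.le
    · simpa using h.le
  by_cases h : 0 < a.n + b.n
  · refine Or.inl ?_
    simp only [mul_n, pow_n]; push_cast; omega
  · have ha1 : a.n = 0 := by omega
    have hb1 : b.n = 0 := by omega
    refine Or.inr ⟨?_, fun x => ?_⟩
    · simp only [mul_n, pow_n, ha1, hb1]; norm_num
    · have ha2 : 0 ≤ a.f x := by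
        rcases ha with h | ⟨_, h⟩
        · simp [ha1] at h
        · simpa using h x
      have hb2 : 0 ≤ b.f x := by
        rcases hb with h | ⟨_, h⟩
        · simp [hb1] at h
        · simpa using h x
      simp only [pow_two, mul_f, mul_n, ha1, hb1, add_zero]
      omega

/-- the pure translation by `n` -/
def e (n : ℤ) : Hh := ⟨fun _ => 0, n⟩
/-- the constant function `c`, exponent `n` -/
def cst (c n : ℤ) : Hh := ⟨fun _ => c, n⟩

@[simp] theorem e_n (n : ℤ) : (e n).n = n := rfl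
@[simp] theorem e_f (n x : ℤ) : (e n).f x = 0 := rfl
@[simp] theorem cst_n (c n : ℤ) : (cst c n).n = n := rfl
@[simp] theorem cst_f (c n x : ℤ) : (cst c n).f x = c := rfl
@[simp] theorem e_zero : e 0 = 1 := rfl

end Hh

/-- Closure of the generators `ω ↦ ω i ⊔ 1` and `ω ↦ (1, 0)` under the operations. -/
inductive Cl (I : Type) : ((I → Hh) → Hh) → Prop
  | gen (i : I) : Cl I (fun ω => ω i ⊔ 1)
  | z : Cl I (fun _ => Hh.cst 1 0)
  | one : Cl I 1
  | mul {g h} : Cl I g → Cl I h → Cl I (g * h)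
  | inv {g} : Cl I g → Cl I g⁻¹
  | sup {g h} : Cl I g → Cl I h → Cl I (g ⊔ h)
  | inf {g h} : Cl I g → Cl I h → Cl I (g ⊓ h)

/-- The subgroup of the product of copies of `Hh`. -/
def GGsub (I : Type) : Subgroup ((I → Hh) → Hh) where
  carrier := {g | Cl I g}
  mul_mem' := Cl.mul
  one_mem' := Cl.one
  inv_mem' := Cl.inv

/-- The l-group `G`. -/
def GG (I : Type) : Type := GGsub I

instance (I : Type) : Group (GG I) := inferInstanceAs (Group (GGsub I))

instance (I : Type) : Lattice (GG I) :=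
  Subtype.lattice (P := fun g => g ∈ GGsub I) (fun _ _ hx hy => Cl.sup hx hy) (fun _ _ hx hy => Cl.inf hx hy)

namespace GG
variable {I : Type}

theorem le_iff (g h : GG I) : g ≤ h ↔ ∀ ω, g.1 ω ≤ h.1 ω := Iff.rfl
@[simp] theorem mul_ap (g h : GG I) (ω : I → Hh) : (g * h).1 ω = g.1 ω * h.1 ω := rfl
@[simp] theorem one_ap (ω : I → Hh) : (1 : GG I).1 ω = 1 := rfl
@[simp] theorem inv_ap (g : GG I) (ω : I → Hh) : (g⁻¹).1 ω = (g.1 ω)⁻¹ := rfl
@[simp] theorem sup_ap (g h : GG I) (ω : I → Hh) : (g ⊔ h).1 ω = g.1 ω ⊔ h.1 ω := rfl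
@[simp] theorem inf_ap (g h : GG I) (ω : I → Hh) : (g ⊓ h).1 ω = g.1 ω ⊓ h.1 ω := rfl

instance : MulLeftMono (GG I) := ⟨by
  intro c a b h ω
  exact mul_le_mul_right (h ω) _⟩

instance : MulRightMono (GG I) := ⟨by
  intro c a b h ω
  exact mul_le_mul_left (h ω) _⟩

theorem normal_valued (a b : GG I) (ha : 1 ≤ a) (hb : 1 ≤ b) : a * b ≤ b ^ 2 * a ^ 2 := by
  intro ω
  have := Hh.normal_valued (a.1 ω) (b.1 ω) (ha ω) (hb ω)
  simpa [pow_two] using this

/-- generators -/
def gen (i : I) : GG I := ⟨fun ω => ω i ⊔ 1, Cl.gen i⟩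
/-- the element `z` -/
def z : GG I := ⟨fun _ => Hh.cst 1 0, Cl.z⟩

@[simp] theorem gen_ap (i : I) (ω : I → Hh) : (gen i).1 ω = ω i ⊔ 1 := rfl
@[simp] theorem z_ap (ω : I → Hh) : (z : GG I).1 ω = Hh.cst 1 0 := rfl

theorem ind {p : ((I → Hh) → Hh) → Prop} (hgen : ∀ i, p (fun ω => ω i ⊔ 1)) (hz : p (fun _ => Hh.cst 1 0))
    (h1 : p 1) (hmul : ∀ g h, p g → p h → p (g * h)) (hinv : ∀ g, p g → p g⁻¹)
    (hsup : ∀ g h, p g → p h → p (g ⊔ h)) (hinf : ∀ g h, p g → p h → p (g ⊓ h)) (g : GG I) : p g.1 := by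
  obtain ⟨g, hg⟩ := g
  induction hg with
  | gen i => exact hgen i
  | z => exact hz
  | one => exact h1
  | mul _ _ h1 h2 => exact hmul _ _ h1 h2
  | inv _ h => exact hinv _ h
  | sup _ _ h1 h2 => exact hsup _ _ h1 h2
  | inf _ _ h1 h2 => exact hinf _ _ h1 h2

end GG

end Pool.H84.LG
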