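import Mathlib

set_option autoImplicit false

namespace Pool.H84.LG

/-- A union of at most `κ` countable sets has size at most `κ`, for infinite `κ`. -/
theorem free_union {I S : Type} (G : S → Set I) (hG : ∀ s, (G s).Countable) (κ : Cardinal)
    (hκ : Cardinal.aleph0 ≤ κ) (hS : Cardinal.mk S ≤ κ) : Cardinal.mk (⋃ s, G s) ≤ κ := by
  refine (Cardinal.mk_iUnion_le G).trans ?_
  have h1 : (⨆ s, Cardinal.mk (G s)) ≤ Cardinal.aleph0 := by
    apply ciSup_le'
    intro s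
    exact Cardinal.mk_le_aleph0_iff.2 (hG s).to_subtype
  calc Cardinal.mk S * (⨆ s, Cardinal.mk (G s)) ≤ κ * Cardinal.aleph0 := mul_le_mul' hS h1
    _ = κ := Cardinal.mul_aleph0_eq hκ

/-- A set which is larger than `κ` is not covered by a set of size at most `κ`. -/
theorem free_pick {I : Type} (T B : Set I) (κ : Cardinal) (hT : κ < Cardinal.mk T)
    (hB : Cardinal.mk B ≤ κ) : ∃ x ∈ T, x ∉ B := by
  by_contra h
  push Not at h
  exact absurd ((Cardinal.mk_le_mk_of_subset h).trans hB) (not_le.2 hT)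

/-- A free triple for countable-valued set mappings of two variables on a set of size at least `ℵ₃`. -/
theorem free_triple (I : Type) (hI : Cardinal.aleph 3 ≤ Cardinal.mk I) (F : I → I → Set I)
    (hF : ∀ i j, (F i j).Countable) :
    ∃ i j k : I, i ≠ j ∧ j ≠ k ∧ i ≠ k ∧ k ∉ F i j ∧ j ∉ F i k ∧ i ∉ F j k := by
  have h12 : Cardinal.aleph 1 < Cardinal.aleph 2 := Cardinal.aleph_lt_aleph.2 (by norm_num)
  have h23 : Cardinal.aleph 2 < Cardinal.aleph 3 := Cardinal.aleph_lt_aleph.2 (by norm_num)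
  have h01 : Cardinal.aleph0 < Cardinal.aleph 1 := Cardinal.aleph0_lt_aleph_one
  have h02 : Cardinal.aleph0 ≤ Cardinal.aleph 2 := Cardinal.aleph0_le_aleph 2
  -- `W` of size `ℵ₂`
  obtain ⟨W, hW⟩ := Cardinal.le_mk_iff_exists_set.1 (h23.le.trans hI)
  -- `k`
  have hB1 : Cardinal.mk (W ∪ ⋃ p : W × W, F p.1 p.2 : Set I) ≤ Cardinal.aleph 2 := by
    refine (Cardinal.mk_union_le _ _).trans ?_
    refine Cardinal.add_le_of_le h02 hW.le ?_
    apply free_union _ (fun p => hF _ _) _ h02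
    rw [Cardinal.mk_prod, Cardinal.lift_id, hW, Cardinal.mul_eq_self h02]
  obtain ⟨k, _, hk⟩ := free_pick Set.univ _ (Cardinal.aleph 2)
    (by rw [Cardinal.mk_univ]; exact h23.trans_le hI) hB1
  simp only [Set.mem_union, Set.mem_iUnion, not_or, not_exists] at hk
  -- `V ⊆ W` of size `ℵ₁`
  obtain ⟨V', hV'⟩ := Cardinal.le_mk_iff_exists_set.1 (h12.le.trans hW.ge)
  have hVc : Cardinal.mk (Subtype.val '' V' : Set I) = Cardinal.aleph 1 := by
    rw [Cardinal.mk_image_eq Subtype.val_injective, hV']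
  -- `j`
  have hB2 : Cardinal.mk ((Subtype.val '' V' : Set I) ∪ ⋃ x : V', F x.1 k : Set I) ≤
      Cardinal.aleph 1 := by
    refine (Cardinal.mk_union_le _ _).trans ?_
    refine Cardinal.add_le_of_le h01.le hVc.le ?_
    exact free_union _ (fun p => hF _ _) _ h01.le hV'.le
  obtain ⟨j, hjW, hj⟩ := free_pick W _ (Cardinal.aleph 1) (by rw [hW]; exact h12) hB2
  simp only [Set.mem_union, Set.mem_iUnion, not_or, not_exists] at hj
  -- `i`
  obtain ⟨i, hiV, hi⟩ := free_pick (Subtype.val '' V' : Set I) (F j k) Cardinal.aleph0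
    (by rw [hVc]; exact h01) (Cardinal.mk_le_aleph0_iff.2 (hF j k).to_subtype)
  obtain ⟨i', hi', rfl⟩ := hiV
  refine ⟨i', j, k, ?_, ?_, ?_, ?_, ?_, hi⟩
  · rintro rfl
    exact hj.1 ⟨i', hi', rfl⟩
  · rintro rfl
    exact hk.1 hjW
  · rintro rfl
    exact hk.1 i'.2
  · exact hk.2 (⟨i'.1, i'.2⟩, ⟨j, hjW⟩)
  · exact hj.2 ⟨i', hi'⟩

end Pool.H84.LG
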