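import Pool.Agent.H84.LG.Low
import Pool.Agent.H84.LG.Free

set_option autoImplicit false

namespace Pool.H84.LG

theorem no_iso (I : Type) (hI : Cardinal.aleph 3 ≤ Cardinal.mk I) (A : Type) [CommGroup A] [Lattice A]
    [MulLeftMono A] (Φ : CLS (GG I) ≃o CLS A) : False := by
  obtain ⟨D⟩ := exists_Dt Φ
  obtain ⟨i, j, k, hij, hjk, hik, h1, h2, h3⟩ := free_triple I hI D.Dp D.Dp_countable
  obtain ⟨p, q, r, hp, hq, hr, hmain⟩ := D.top_main i j k hij hik hjk h1 h2 h3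
  have hQ : ∀ f g h : Hh, 0 < f.n → 0 < g.n → 0 < h.n →
      ∃ a b c : ℕ, 0 < a ∧ 0 < b ∧ 0 < c ∧ f.n = a ∧ g.n = b ∧ h.n = c ∧
        D.Q (pt i j k f g h) = D.Q (Dt.w i j k a b c) := by
    intro f g h hf hg hh
    refine ⟨f.n.toNat, g.n.toNat, h.n.toNat, by omega, by omega, by omega, by omega, by omega, by omega, ?_⟩
    apply D.Q_homog 1 one_pos
    intro m
    have e1 : ((f.n.toNat : ℕ) : ℤ) = f.n := by omega
    have e2 : ((g.n.toNat : ℕ) : ℤ) = g.n := by omega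
    have e3 : ((h.n.toNat : ℕ) : ℤ) = h.n := by omega
    rw [Dt.w, e1, e2, e3]
    by_cases hm1 : m = i
    · rw [hm1, pt_i, pt_i]; simp
    by_cases hm2 : m = j
    · rw [hm2, pt_j hij, pt_j hij]; simp
    by_cases hm3 : m = k
    · rw [hm3, pt_k hik hjk, pt_k hik hjk]; simp
    rw [pt_of hm1 hm2 hm3, pt_of hm1 hm2 hm3]; simp
  -- values
  have hV : ∀ a b c : ℕ, 0 < a → 0 < b → 0 < c →
      val (D.Q (Dt.w i j k a b c)) (D.b k) (D.b i ^ p) = r * ((a : ℝ) / c) ∧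
      val (D.Q (Dt.w i j k a b c)) (D.b k) (D.b j ^ q) = r * ((b : ℝ) / c) ∧
      val (D.Q (Dt.w i j k a b c)) (D.b k) (D.b k ^ r) = r * ((c : ℝ) / c) ∧
      0 < ((Dt.w i j k a b c) k).n := by
    intro a b c ha hb hc
    have hk : 0 < ((Dt.w i j k a b c) k).n := by
      simp only [Dt.w, pt_k hik hjk, Hh.e_n]; exact_mod_cast hc
    obtain ⟨e1, e2, e3⟩ := D.top_spec (Dt.w i j k a b c) k hk
    obtain ⟨e4, e5⟩ := hmain a b c ha hb hc
    have e6 := fun x => fun_zpow (⊤ : Subgroup A) _ (fun x _ y _ => e1 x y) x (Subgroup.mem_top _)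
    refine ⟨?_, ?_, ?_, hk⟩
    · rw [← e4, ← zpow_natCast, e6]; push_cast; rfl
    · rw [← e5, ← zpow_natCast, e6]; push_cast; rfl
    · rw [← zpow_natCast, e6, e3, div_self (by positivity)]; push_cast; rfl
  have sg : ∀ (s t : ℤ) (a b c : ℕ), 0 < c →
      ((s : ℝ) * (r * ((a : ℝ) / c)) + t * (r * ((b : ℝ) / c)) ≤ 0 ↔ s * (a : ℤ) + t * b ≤ 0) := by
    intro s t a b c hc
    have hr' : (0 : ℝ) < r := by exact_mod_cast hr
    have hc' : (0 : ℝ) < c := by exact_mod_cast hc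
    have e1 : (s : ℝ) * (r * ((a : ℝ) / c)) + t * (r * ((b : ℝ) / c)) =
        (r / c) * (((s * (a : ℤ) + t * b : ℤ)) : ℝ) := by
      push_cast; field_simp
    rw [e1]
    have e2 : (0 : ℝ) < r / c := by positivity
    constructor
    · intro h
      have : (((s * (a : ℤ) + t * b : ℤ)) : ℝ) ≤ 0 := by
        by_contra hcon
        push Not at hcon
        have := mul_pos e2 hcon
        linarith
      exact_mod_cast this
    · intro h
      have : (((s * (a : ℤ) + t * b : ℤ)) : ℝ) ≤ 0 := by exact_mod_cast h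
      exact mul_nonpos_of_nonneg_of_nonpos e2.le this
  have zp : ∀ (x : A) (n : ℕ) (s : ℤ), (x ^ n) ^ s = x ^ ((n : ℤ) * s) := by
    intro x n s
    rw [zpow_mul, zpow_natCast]
  refine Tri.contradiction (D := D) (i := i) (j := j) (k := k) (Bi := D.b i ^ p) (Bj := D.b j ^ q)
    (Bk := D.b k ^ r) ⟨hij, hik, hjk, ?_, ?_, ?_, ?_, ?_, ?_⟩
  · intro f g h hf hg hh s t
    obtain ⟨a, b, c, ha, hb, hc, e1, e2, e3, e4⟩ := hQ f g h hf hg hh
    obtain ⟨v1, v2, v3, hk⟩ := hV a b c ha hb hc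
    rw [e4, D.sign2 _ k hk, v1, v2, e1, e2]
    exact sg s t a b c hc
  · intro f g h hf hg hh s t
    obtain ⟨a, b, c, ha, hb, hc, e1, e2, e3, e4⟩ := hQ f g h hf hg hh
    obtain ⟨v1, v2, v3, hk⟩ := hV a b c ha hb hc
    rw [e4, D.sign2 _ k hk, v2, v3, e2, e3]
    exact sg s t b c c hc
  · intro f g h hf hg hh s t
    obtain ⟨a, b, c, ha, hb, hc, e1, e2, e3, e4⟩ := hQ f g h hf hg hh
    obtain ⟨v1, v2, v3, hk⟩ := hV a b c ha hb hc
    rw [e4, D.sign2 _ k hk, v1, v3, e1, e3]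
    exact sg s t a c c hc
  · intro f g h h' s t r'
    rw [zp, zp]
    apply D.indep h1
    intro m hm
    by_cases hm1 : m = i
    · rw [hm1, pt_i, pt_i]
    by_cases hm2 : m = j
    · rw [hm2, pt_j hij, pt_j hij]
    rw [pt_of hm1 hm2 hm, pt_of hm1 hm2 hm]
  · intro f g g' h s t r'
    rw [zp, zp]
    apply D.indep h2
    intro m hm
    by_cases hm1 : m = i
    · rw [hm1, pt_i, pt_i]
    by_cases hm3 : m = k
    · rw [hm3, pt_k hik hjk, pt_k hik hjk]
    rw [pt_of hm1 hm hm3, pt_of hm1 hm hm3]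
  · intro f f' g h s t r'
    rw [zp, zp]
    apply D.indep h3
    intro m hm
    by_cases hm2 : m = j
    · rw [hm2, pt_j hij, pt_j hij]
    by_cases hm3 : m = k
    · rw [hm3, pt_k hik hjk, pt_k hik hjk]
    rw [pt_of hm hm2 hm3, pt_of hm hm2 hm3]

/-- the index set -/
def Idx : Type := (Cardinal.aleph 3 : Cardinal.{0}).out

theorem Idx_card : Cardinal.aleph 3 ≤ Cardinal.mk Idx := by
  unfold Idx
  rw [Cardinal.mk_out]

end Pool.H84.LG
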