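import Pool.Agent.H84.LG.Defs

set_option autoImplicit false

namespace Pool.H84.LG

theorem Hh.inf_of_lt {a b : Hh} (h : a.n < b.n) : a ⊓ b = a := by
  rw [Hh.inf_def, if_pos h]

theorem Hh.inf_of_gt {a b : Hh} (h : b.n < a.n) : a ⊓ b = b := by
  rw [Hh.inf_def, if_neg (not_lt.mpr h.le), if_pos h]

open Classical in
/-- evaluation point: `a` at `i`, `b` at `j`, `c` at `k`, trivial elsewhere -/
noncomputable def pt {I : Type} (i j k : I) (a b c : Hh) : I → Hh :=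
  fun l => if l = i then a else if l = j then b else if l = k then c else 1

section pt
variable {I : Type} {i j k : I}

theorem pt_i (a b c : Hh) : pt i j k a b c i = a := by simp [pt]
theorem pt_j (hij : i ≠ j) (a b c : Hh) : pt i j k a b c j = b := by simp [pt, hij.symm]
theorem pt_k (hik : i ≠ k) (hjk : j ≠ k) (a b c : Hh) : pt i j k a b c k = c := by
  simp [pt, hik.symm, hjk.symm]
theorem pt_of {l : I} (h1 : l ≠ i) (h2 : l ≠ j) (h3 : l ≠ k) (a b c : Hh) : pt i j k a b c l = 1 := by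
  simp [pt, h1, h2, h3]

/-- swapping the first two places -/
theorem pt_swap12 (hij : i ≠ j) (a b c : Hh) : pt i j k a b c = pt j i k b a c := by
  funext l
  unfold pt
  by_cases h1 : l = i <;> by_cases h2 : l = j <;> simp_all

/-- swapping the last two places -/
theorem pt_swap23 (hjk : j ≠ k) (a b c : Hh) : pt i j k a b c = pt i k j a c b := by
  funext l
  unfold pt
  by_cases h1 : l = k <;> by_cases h2 : l = j <;> simp_all

end pt

variable {I : Type}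

/-- every element depends on finitely many coordinates -/
theorem dep (g : GG I) : ∃ S : Finset I, ∀ ω ω' : I → Hh, (∀ i ∈ S, ω i = ω' i) → g.1 ω = g.1 ω' := by
  classical
  refine GG.ind (p := fun g => ∃ S : Finset I, ∀ ω ω' : I → Hh, (∀ i ∈ S, ω i = ω' i) → g ω = g ω')
    ?_ ?_ ?_ ?_ ?_ ?_ ?_ g
  · intro i
    exact ⟨{i}, fun ω ω' h => by simp [h i (by simp)]⟩
  · exact ⟨∅, fun _ _ _ => rfl⟩
  · exact ⟨∅, fun _ _ _ => rfl⟩
  · rintro g h ⟨S, hS⟩ ⟨T, hT⟩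
    refine ⟨S ∪ T, fun ω ω' hh => ?_⟩
    show g ω * h ω = g ω' * h ω'
    rw [hS ω ω' (fun i hi => hh i (by simp [hi])), hT ω ω' (fun i hi => hh i (by simp [hi]))]
  · rintro g ⟨S, hS⟩
    refine ⟨S, fun ω ω' hh => ?_⟩
    show (g ω)⁻¹ = (g ω')⁻¹
    rw [hS ω ω' hh]
  · rintro g h ⟨S, hS⟩ ⟨T, hT⟩
    refine ⟨S ∪ T, fun ω ω' hh => ?_⟩
    show g ω ⊔ h ω = g ω' ⊔ h ω'
    rw [hS ω ω' (fun i hi => hh i (by simp [hi])), hT ω ω' (fun i hi => hh i (by simp [hi]))]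
  · rintro g h ⟨S, hS⟩ ⟨T, hT⟩
    refine ⟨S ∪ T, fun ω ω' hh => ?_⟩
    show g ω ⊓ h ω = g ω' ⊓ h ω'
    rw [hS ω ω' (fun i hi => hh i (by simp [hi])), hT ω ω' (fun i hi => hh i (by simp [hi]))]

/-- generic two-point induction -/
theorem rel (R : Hh → Hh → Prop) (ω ω' : I → Hh) (hgen : ∀ i, R (ω i ⊔ 1) (ω' i ⊔ 1))
    (hz : R (Hh.cst 1 0) (Hh.cst 1 0)) (h1 : R 1 1)
    (hmul : ∀ a b a' b', R a a' → R b b' → R (a * b) (a' * b'))
    (hinv : ∀ a a', R a a' → R a⁻¹ a'⁻¹)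
    (hsup : ∀ a b a' b', R a a' → R b b' → R (a ⊔ b) (a' ⊔ b'))
    (hinf : ∀ a b a' b', R a a' → R b b' → R (a ⊓ b) (a' ⊓ b')) (g : GG I) : R (g.1 ω) (g.1 ω') :=
  GG.ind (p := fun g => R (g ω) (g ω')) hgen hz h1 (fun _ _ => hmul _ _ _ _) (fun _ => hinv _ _)
    (fun _ _ => hsup _ _ _ _) (fun _ _ => hinf _ _ _ _) g

/-- the exponent is positively homogeneous -/
theorem homog (N : ℕ) (ω ω' : I → Hh) (h : ∀ i, (ω' i).n = N * (ω i).n) (g : GG I) :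
    (g.1 ω').n = N * (g.1 ω).n := by
  have hN : (0 : ℤ) ≤ N := by positivity
  refine rel (fun a b => b.n = N * a.n) ω ω' ?_ ?_ ?_ ?_ ?_ ?_ ?_ g
  · intro i
    simp only [Hh.sup_n, Hh.one_n, h i]
    rw [mul_max_of_nonneg _ _ hN, mul_zero]
  · simp
  · simp
  · intro a b a' b' h1 h2
    simp only [Hh.mul_n, h1, h2]; ring
  · intro a a' h1
    simp only [Hh.inv_n, h1]; ring
  · intro a b a' b' h1 h2
    simp only [Hh.sup_n, h1, h2]
    rw [mul_max_of_nonneg _ _ hN]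
  · intro a b a' b' h1 h2
    simp only [Hh.inf_n, h1, h2]
    rw [mul_min_of_nonneg _ _ hN]

/-- conjugation by `(φ, 0)` -/
theorem conj (φ : ℤ → ℤ) (ω ω' : I → Hh)
    (h : ∀ i, (ω' i).n = (ω i).n ∧ ∀ x, (ω' i).f x = (ω i).f x + φ x - φ (x + (ω i).n)) (g : GG I) :
    (g.1 ω').n = (g.1 ω).n ∧ ∀ x, (g.1 ω').f x = (g.1 ω).f x + φ x - φ (x + (g.1 ω).n) := by
  refine rel (fun a b => b.n = a.n ∧ ∀ x, b.f x = a.f x + φ x - φ (x + a.n)) ω ω' ?_ ?_ ?_ ?_ ?_ ?_ ?_ g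
  · intro i
    obtain ⟨h1, h2⟩ := h i
    refine ⟨by simp [h1], fun x => ?_⟩
    rcases lt_trichotomy (ω i).n 0 with h3 | h3 | h3
    · rw [Hh.sup_of_lt (a := ω' i) (by rw [h1]; simpa using h3), Hh.sup_of_lt (a := ω i) (by simpa using h3)]
      simp
    · rw [Hh.sup_f_of_eq (a := ω' i) (by rw [h1]; simpa using h3), Hh.sup_f_of_eq (a := ω i) (by simpa using h3), h2 x]
      simp [h3]
    · rw [Hh.sup_of_gt (a := ω' i) (by rw [h1]; simpa using h3), Hh.sup_of_gt (a := ω i) (by simpa using h3)]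
      exact h2 x
  · simp
  · simp
  · rintro a b a' b' ⟨h1, h2⟩ ⟨h3, h4⟩
    refine ⟨by simp [h1, h3], fun x => ?_⟩
    simp only [Hh.mul_f, Hh.mul_n, h4, h2, h3]
    rw [show x + (a.n + b.n) = x + b.n + a.n by ring]; ring
  · rintro a a' ⟨h1, h2⟩
    refine ⟨by simp [h1], fun x => ?_⟩
    simp only [Hh.inv_f, Hh.inv_n, h1, h2]
    rw [show x - a.n + a.n = x by ring, show x + -a.n = x - a.n by ring]; ring
  · rintro a b a' b' ⟨h1, h2⟩ ⟨h3, h4⟩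
    refine ⟨by simp [h1, h3], fun x => ?_⟩
    rcases lt_trichotomy a.n b.n with h5 | h5 | h5
    · rw [Hh.sup_of_lt h5, Hh.sup_of_lt (by rw [h1, h3]; exact h5)]
      exact h4 x
    · rw [Hh.sup_f_of_eq h5, Hh.sup_f_of_eq (by rw [h1, h3]; exact h5), h2 x, h4 x, Hh.sup_n, ← h5, max_self]
      omega
    · rw [Hh.sup_of_gt h5, Hh.sup_of_gt (by rw [h1, h3]; exact h5)]
      exact h2 x
  · rintro a b a' b' ⟨h1, h2⟩ ⟨h3, h4⟩
    refine ⟨by simp [h1, h3], fun x => ?_⟩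
    rcases lt_trichotomy a.n b.n with h5 | h5 | h5
    · rw [Hh.inf_of_lt h5, Hh.inf_of_lt (by rw [h1, h3]; exact h5)]
      exact h2 x
    · rw [Hh.inf_f_of_eq h5, Hh.inf_f_of_eq (by rw [h1, h3]; exact h5), h2 x, h4 x, Hh.inf_n, ← h5, min_self]
      omega
    · rw [Hh.inf_of_gt h5, Hh.inf_of_gt (by rw [h1, h3]; exact h5)]
      exact h4 x

/-- restriction to even integers -/
theorem restr (ω ω' : I → Hh)
    (h : ∀ i, (ω i).n = 2 * (ω' i).n ∧ ∀ x, (ω' i).f x = (ω i).f (2 * x)) (g : GG I) :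
    (g.1 ω).n = 2 * (g.1 ω').n ∧ ∀ x, (g.1 ω').f x = (g.1 ω).f (2 * x) := by
  refine rel (fun a b => a.n = 2 * b.n ∧ ∀ x, b.f x = a.f (2 * x)) ω ω' ?_ ?_ ?_ ?_ ?_ ?_ ?_ g
  · intro i
    obtain ⟨h1, h2⟩ := h i
    refine ⟨by simp only [Hh.sup_n, Hh.one_n, h1]; omega, fun x => ?_⟩
    rcases lt_trichotomy (ω' i).n 0 with h3 | h3 | h3
    · rw [Hh.sup_of_lt (by simpa using h3), Hh.sup_of_lt (by simp [h1]; omega)]
      simp
    · rw [Hh.sup_f_of_eq (by simpa using h3), Hh.sup_f_of_eq (by simp [h1]; omega), h2 x]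
      simp
    · rw [Hh.sup_of_gt (by simpa using h3), Hh.sup_of_gt (by simp [h1]; omega)]
      exact h2 x
  · simp
  · simp
  · rintro a b a' b' ⟨h1, h2⟩ ⟨h3, h4⟩
    refine ⟨by simp [h1, h3]; ring, fun x => ?_⟩
    simp only [Hh.mul_f, h4, h2, h3]
    rw [show 2 * (x + b'.n) = 2 * x + 2 * b'.n by ring]
  · rintro a a' ⟨h1, h2⟩
    refine ⟨by simp [h1], fun x => ?_⟩
    simp only [Hh.inv_f, h1, h2]
    rw [show 2 * (x - a'.n) = 2 * x - 2 * a'.n by ring]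
  · rintro a b a' b' ⟨h1, h2⟩ ⟨h3, h4⟩
    refine ⟨by simp only [Hh.sup_n, h1, h3]; omega, fun x => ?_⟩
    rcases lt_trichotomy a'.n b'.n with h5 | h5 | h5
    · rw [Hh.sup_of_lt h5, Hh.sup_of_lt (by omega)]
      exact h4 x
    · rw [Hh.sup_f_of_eq h5, Hh.sup_f_of_eq (by omega), h2 x, h4 x]
    · rw [Hh.sup_of_gt h5, Hh.sup_of_gt (by omega)]
      exact h2 x
  · rintro a b a' b' ⟨h1, h2⟩ ⟨h3, h4⟩
    refine ⟨by simp only [Hh.inf_n, h1, h3]; omega, fun x => ?_⟩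
    rcases lt_trichotomy a'.n b'.n with h5 | h5 | h5
    · rw [Hh.inf_of_lt h5, Hh.inf_of_lt (by omega)]
      exact h2 x
    · rw [Hh.inf_f_of_eq h5, Hh.inf_f_of_eq (by omega), h2 x, h4 x]
    · rw [Hh.inf_of_gt h5, Hh.inf_of_gt (by omega)]
      exact h4 x

/-- the exponent at the points `pt i j k (e a) (e b) (e c)` takes values in finitely many linear forms -/
theorem forms (i j k : I) (hij : i ≠ j) (hik : i ≠ k) (hjk : j ≠ k) (g : GG I) :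
    ∃ M : Finset (ℤ × ℤ × ℤ), ∀ a b c : ℤ, 0 ≤ a → 0 ≤ b → 0 ≤ c → ∃ m ∈ M,
      (g.1 (pt i j k (Hh.e a) (Hh.e b) (Hh.e c))).n = m.1 * a + m.2.1 * b + m.2.2 * c := by
  classical
  refine GG.ind (p := fun g => ∃ M : Finset (ℤ × ℤ × ℤ), ∀ a b c : ℤ, 0 ≤ a → 0 ≤ b → 0 ≤ c → ∃ m ∈ M,
      (g (pt i j k (Hh.e a) (Hh.e b) (Hh.e c))).n = m.1 * a + m.2.1 * b + m.2.2 * c)
    ?_ ?_ ?_ ?_ ?_ ?_ ?_ g
  · intro l
    refine ⟨{(1, 0, 0), (0, 1, 0), (0, 0, 1), (0, 0, 0)}, fun a b c ha hb hc => ?_⟩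
    by_cases h1 : l = i
    · subst h1
      exact ⟨(1, 0, 0), by simp, by simp [pt_i, ha]⟩
    by_cases h2 : l = j
    · subst h2
      exact ⟨(0, 1, 0), by simp, by simp [pt_j hij, hb]⟩
    by_cases h3 : l = k
    · subst h3
      exact ⟨(0, 0, 1), by simp, by simp [pt_k hik hjk, hc]⟩
    exact ⟨(0, 0, 0), by simp, by simp [pt_of h1 h2 h3]⟩
  · exact ⟨{(0, 0, 0)}, fun a b c _ _ _ => ⟨(0, 0, 0), by simp, by simp⟩⟩
  · exact ⟨{(0, 0, 0)}, fun a b c _ _ _ => ⟨(0, 0, 0), by simp, by simp⟩⟩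
  · rintro g h ⟨M, hM⟩ ⟨N, hN⟩
    refine ⟨Finset.image₂ (· + ·) M N, fun a b c ha hb hc => ?_⟩
    obtain ⟨m, hm, hm'⟩ := hM a b c ha hb hc
    obtain ⟨n, hn, hn'⟩ := hN a b c ha hb hc
    refine ⟨m + n, Finset.mem_image₂_of_mem hm hn, ?_⟩
    simp only [Pi.mul_apply, Hh.mul_n, hm', hn', Prod.fst_add, Prod.snd_add]
    ring
  · rintro g ⟨M, hM⟩
    refine ⟨M.image (fun m => -m), fun a b c ha hb hc => ?_⟩
    obtain ⟨m, hm, hm'⟩ := hM a b c ha hb hc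
    refine ⟨-m, Finset.mem_image_of_mem _ hm, ?_⟩
    simp only [Pi.inv_apply, Hh.inv_n, hm', Prod.fst_neg, Prod.snd_neg]
    ring
  · rintro g h ⟨M, hM⟩ ⟨N, hN⟩
    refine ⟨M ∪ N, fun a b c ha hb hc => ?_⟩
    obtain ⟨m, hm, hm'⟩ := hM a b c ha hb hc
    obtain ⟨n, hn, hn'⟩ := hN a b c ha hb hc
    simp only [Pi.sup_apply, Hh.sup_n]
    rcases max_cases (g (pt i j k (Hh.e a) (Hh.e b) (Hh.e c))).n (h (pt i j k (Hh.e a) (Hh.e b) (Hh.e c))).n with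
      ⟨h1, _⟩ | ⟨h1, _⟩
    · exact ⟨m, by simp [hm], by rw [h1, hm']⟩
    · exact ⟨n, by simp [hn], by rw [h1, hn']⟩
  · rintro g h ⟨M, hM⟩ ⟨N, hN⟩
    refine ⟨M ∪ N, fun a b c ha hb hc => ?_⟩
    obtain ⟨m, hm, hm'⟩ := hM a b c ha hb hc
    obtain ⟨n, hn, hn'⟩ := hN a b c ha hb hc
    simp only [Pi.inf_apply, Hh.inf_n]
    rcases min_cases (g (pt i j k (Hh.e a) (Hh.e b) (Hh.e c))).n (h (pt i j k (Hh.e a) (Hh.e b) (Hh.e c))).n with
      ⟨h1, _⟩ | ⟨h1, _⟩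
    · exact ⟨m, by simp [hm], by rw [h1, hm']⟩
    · exact ⟨n, by simp [hn], by rw [h1, hn']⟩

/-- the exponent at the points `pt i j k (e a) (e b) (e c)` is Lipschitz -/
theorem lip (i j k : I) (hij : i ≠ j) (hik : i ≠ k) (hjk : j ≠ k) (g : GG I) :
    ∃ C : ℤ, 0 ≤ C ∧ ∀ a b c a' b' c' : ℤ,
      |(g.1 (pt i j k (Hh.e a) (Hh.e b) (Hh.e c))).n - (g.1 (pt i j k (Hh.e a') (Hh.e b') (Hh.e c'))).n|
        ≤ C * (|a - a'| + |b - b'| + |c - c'|) := by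
  classical
  refine GG.ind (p := fun g => ∃ C : ℤ, 0 ≤ C ∧ ∀ a b c a' b' c' : ℤ,
      |(g (pt i j k (Hh.e a) (Hh.e b) (Hh.e c))).n - (g (pt i j k (Hh.e a') (Hh.e b') (Hh.e c'))).n|
        ≤ C * (|a - a'| + |b - b'| + |c - c'|))
    ?_ ?_ ?_ ?_ ?_ ?_ ?_ g
  · intro l
    refine ⟨1, by norm_num, fun a b c a' b' c' => ?_⟩
    have h0 : ∀ x y : ℤ, |max x 0 - max y 0| ≤ |x - y| := fun x y => abs_max_sub_max_le_abs x y 0
    have h1a := abs_nonneg (a - a')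
    have h1b := abs_nonneg (b - b')
    have h1c := abs_nonneg (c - c')
    by_cases h1 : l = i
    · subst h1
      have := h0 a a'
      simp only [pt_i, Hh.sup_n, Hh.one_n, Hh.e_n]; linarith
    by_cases h2 : l = j
    · subst h2
      have := h0 b b'
      simp only [pt_j hij, Hh.sup_n, Hh.one_n, Hh.e_n]; linarith
    by_cases h3 : l = k
    · subst h3
      have := h0 c c'
      simp only [pt_k hik hjk, Hh.sup_n, Hh.one_n, Hh.e_n]; linarith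
    simp only [pt_of h1 h2 h3, sub_self, abs_zero]; linarith
  · refine ⟨0, le_refl _, fun a b c a' b' c' => by simp⟩
  · refine ⟨0, le_refl _, fun a b c a' b' c' => by simp⟩
  · rintro g h ⟨C, hC, hM⟩ ⟨D, hD, hN⟩
    refine ⟨C + D, by positivity, fun a b c a' b' c' => ?_⟩
    have h1 := hM a b c a' b' c'
    have h2 := hN a b c a' b' c'
    simp only [Pi.mul_apply, Hh.mul_n]
    rw [add_sub_add_comm, add_mul]
    exact (abs_add_le _ _).trans (add_le_add h1 h2)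
  · rintro g ⟨C, hC, hM⟩
    refine ⟨C, hC, fun a b c a' b' c' => ?_⟩
    have h1 := hM a b c a' b' c'
    simp only [Pi.inv_apply, Hh.inv_n]
    rw [neg_sub_neg, abs_sub_comm]
    exact h1
  · rintro g h ⟨C, hC, hM⟩ ⟨D, hD, hN⟩
    refine ⟨C + D, by positivity, fun a b c a' b' c' => ?_⟩
    have h1 := hM a b c a' b' c'
    have h2 := hN a b c a' b' c'
    simp only [Pi.sup_apply, Hh.sup_n]
    refine (abs_max_sub_max_le_max _ _ _ _).trans ?_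
    have h3 : 0 ≤ |a - a'| + |b - b'| + |c - c'| := by positivity
    exact max_le (h1.trans (mul_le_mul_of_nonneg_right (by linarith) h3))
      (h2.trans (mul_le_mul_of_nonneg_right (by linarith) h3))
  · rintro g h ⟨C, hC, hM⟩ ⟨D, hD, hN⟩
    refine ⟨C + D, by positivity, fun a b c a' b' c' => ?_⟩
    have h1 := hM a b c a' b' c'
    have h2 := hN a b c a' b' c'
    simp only [Pi.inf_apply, Hh.inf_n]
    refine (abs_min_sub_min_le_max _ _ _ _).trans ?_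
    have h3 : 0 ≤ |a - a'| + |b - b'| + |c - c'| := by positivity
    exact max_le (h1.trans (mul_le_mul_of_nonneg_right (by linarith) h3))
      (h2.trans (mul_le_mul_of_nonneg_right (by linarith) h3))

theorem ends_cmp_aux (P p r P' p' r' : ℤ) (h : P < P' ∨ (P = P' ∧ (p < p' ∨ (p = p' ∧ r ≤ r')))) :
    ∃ N : ℤ, ∀ x : ℤ, N ≤ x →
      Hh.cst (p * x + r) P ≤ Hh.cst (p' * x + r') P' ∧ P * x + p ≤ P' * x + p' := by
  rcases h with h | ⟨hP, h | ⟨h, h1⟩⟩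
  · refine ⟨max 0 (p - p'), fun x hx => ⟨Or.inl h, ?_⟩⟩
    have h1 : 0 ≤ x := le_trans (le_max_left _ _) hx
    have h2 : p - p' ≤ x := le_trans (le_max_right _ _) hx
    nlinarith [mul_nonneg (sub_nonneg.mpr (Int.add_one_le_iff.mpr h)) h1]
  · subst hP
    refine ⟨max 0 (r - r'), fun x hx => ⟨Or.inr ⟨rfl, fun y => ?_⟩, by linarith⟩⟩
    have h1 : 0 ≤ x := le_trans (le_max_left _ _) hx
    have h2 : r - r' ≤ x := le_trans (le_max_right _ _) hx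
    simp only [Hh.cst_f]
    nlinarith [mul_nonneg (sub_nonneg.mpr (Int.add_one_le_iff.mpr h)) h1]
  · subst h
    subst hP
    exact ⟨0, fun x hx => ⟨Or.inr ⟨rfl, fun y => by simp only [Hh.cst_f]; linarith⟩, le_refl _⟩⟩

theorem ends_cmp (P p r P' p' r' : ℤ) :
    (∃ N : ℤ, ∀ x : ℤ, N ≤ x →
      Hh.cst (p * x + r) P ≤ Hh.cst (p' * x + r') P' ∧ P * x + p ≤ P' * x + p') ∨
    (∃ N : ℤ, ∀ x : ℤ, N ≤ x →
      Hh.cst (p' * x + r') P' ≤ Hh.cst (p * x + r) P ∧ P' * x + p' ≤ P * x + p) := by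
  by_cases h : P < P' ∨ (P = P' ∧ (p < p' ∨ (p = p' ∧ r ≤ r')))
  · exact Or.inl (ends_cmp_aux _ _ _ _ _ _ h)
  · exact Or.inr (ends_cmp_aux _ _ _ _ _ _ (by omega))

/-- behaviour at the ends -/
theorem ends (i j k : I) (hij : i ≠ j) (g : GG I) :
    ∃ P p r N : ℤ, ∀ h : ℤ, N ≤ h →
      g.1 (pt i j k (Hh.cst h 1) (Hh.e 1) 1) = Hh.cst (p * h + r) P ∧
      (g.1 (pt i j k (Hh.e (h + 1)) (Hh.e h) 1)).n = P * h + p := by
  classical
  refine GG.ind (p := fun g => ∃ P p r N : ℤ, ∀ h : ℤ, N ≤ h →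
      g (pt i j k (Hh.cst h 1) (Hh.e 1) 1) = Hh.cst (p * h + r) P ∧
      (g (pt i j k (Hh.e (h + 1)) (Hh.e h) 1)).n = P * h + p)
    ?_ ?_ ?_ ?_ ?_ ?_ ?_ g
  · intro l
    by_cases h1 : l = i
    · subst h1
      refine ⟨1, 1, 0, 0, fun h hh => ?_⟩
      simp only [pt_i, Hh.sup_n, Hh.one_n, Hh.e_n]
      refine ⟨?_, by omega⟩
      rw [Hh.sup_of_gt (by simp)]; simp
    by_cases h2 : l = j
    · subst h2
      refine ⟨1, 0, 0, 0, fun h hh => ?_⟩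
      simp only [pt_j hij, Hh.sup_n, Hh.one_n, Hh.e_n]
      refine ⟨?_, by omega⟩
      rw [Hh.sup_of_gt (by simp)]; simp [Hh.e, Hh.cst]
    refine ⟨0, 0, 0, 0, fun h hh => ?_⟩
    have h3 : ∀ a b : Hh, pt i j k a b 1 l = 1 := by
      intro a b; simp [pt, h1, h2]
    simp only [h3, sup_idem]
    exact ⟨by ext <;> simp, by simp⟩
  · exact ⟨0, 0, 1, 0, fun h hh => ⟨by simp, by simp⟩⟩
  · exact ⟨0, 0, 0, 0, fun h hh => ⟨by ext <;> simp, by simp⟩⟩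
  · rintro g h ⟨P, p, r, N, h1⟩ ⟨P', p', r', N', h2⟩
    refine ⟨P + P', p + p', r + r', max N N', fun x hx => ?_⟩
    obtain ⟨h3, h4⟩ := h1 x (le_trans (le_max_left _ _) hx)
    obtain ⟨h5, h6⟩ := h2 x (le_trans (le_max_right _ _) hx)
    simp only [Pi.mul_apply, h3, h5, Hh.mul_n, h4, h6]
    refine ⟨?_, by ring⟩
    ext y
    · simp only [Hh.mul_f, Hh.cst_f]; ring
    · simp
  · rintro g ⟨P, p, r, N, h1⟩
    refine ⟨-P, -p, -r, N, fun x hx => ?_⟩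
    obtain ⟨h3, h4⟩ := h1 x hx
    simp only [Pi.inv_apply, h3, Hh.inv_n, h4]
    refine ⟨?_, by ring⟩
    ext y
    · simp only [Hh.inv_f, Hh.cst_f]; ring
    · simp
  · rintro g h ⟨P, p, r, N, h1⟩ ⟨P', p', r', N', h2⟩
    rcases ends_cmp P p r P' p' r' with ⟨N'', h3⟩ | ⟨N'', h3⟩
    · refine ⟨P', p', r', max (max N N') N'', fun x hx => ?_⟩
      obtain ⟨h3, h4⟩ := h3 x (by omega)
      obtain ⟨h5, h6⟩ := h1 x (by omega)
      obtain ⟨h7, h8⟩ := h2 x (by omega)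
      simp only [Pi.sup_apply, h5, h7, Hh.sup_n, h6, h8]
      exact ⟨sup_eq_right.mpr h3, max_eq_right h4⟩
    · refine ⟨P, p, r, max (max N N') N'', fun x hx => ?_⟩
      obtain ⟨h3, h4⟩ := h3 x (by omega)
      obtain ⟨h5, h6⟩ := h1 x (by omega)
      obtain ⟨h7, h8⟩ := h2 x (by omega)
      simp only [Pi.sup_apply, h5, h7, Hh.sup_n, h6, h8]
      exact ⟨sup_eq_left.mpr h3, max_eq_left h4⟩
  · rintro g h ⟨P, p, r, N, h1⟩ ⟨P', p', r', N', h2⟩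
    rcases ends_cmp P p r P' p' r' with ⟨N'', h3⟩ | ⟨N'', h3⟩
    · refine ⟨P, p, r, max (max N N') N'', fun x hx => ?_⟩
      obtain ⟨h3, h4⟩ := h3 x (by omega)
      obtain ⟨h5, h6⟩ := h1 x (by omega)
      obtain ⟨h7, h8⟩ := h2 x (by omega)
      simp only [Pi.inf_apply, h5, h7, Hh.inf_n, h6, h8]
      exact ⟨inf_eq_left.mpr h3, min_eq_left h4⟩
    · refine ⟨P', p', r', max (max N N') N'', fun x hx => ?_⟩
      obtain ⟨h3, h4⟩ := h3 x (by omega)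
      obtain ⟨h5, h6⟩ := h1 x (by omega)
      obtain ⟨h7, h8⟩ := h2 x (by omega)
      simp only [Pi.inf_apply, h5, h7, Hh.inf_n, h6, h8]
      exact ⟨inf_eq_right.mpr h3, min_eq_right h4⟩

end Pool.H84.LG
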