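import Mathlib

set_option autoImplicit false

namespace Pool.H84.LG

open Filter Topology

theorem line_three {κ₁ κ₂ θ : ℝ} (h1 : 0 < κ₁) (h2 : 0 < κ₂) (hθ : 0 < θ)
    {s1 s2 s3 t1 t2 t3 l : ℝ} (hs1 : 0 ≤ s1) (hs3 : 0 ≤ s3) (ht1 : 0 ≤ t1) (ht3 : 0 ≤ t3)
    (hl0 : 0 < l) (hl1 : l < 1) (hne : s1 ≠ s3)
    (hs : s2 = l * s1 + (1 - l) * s3) (ht : t2 = l * t1 + (1 - l) * t3)
    (e1 : κ₁ * s1 ^ θ + κ₂ * t1 ^ θ = 1) (e2 : κ₁ * s2 ^ θ + κ₂ * t2 ^ θ = 1)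
    (e3 : κ₁ * s3 ^ θ + κ₂ * t3 ^ θ = 1) : θ = 1 := by
  rcases lt_trichotomy θ 1 with h | h | h
  · exfalso
    have a1 := (Real.strictConcaveOn_rpow hθ h).2 (x := s1) hs1 (y := s3) hs3 hne hl0
      (sub_pos.mpr hl1) (by ring)
    have a2 := (Real.concaveOn_rpow hθ.le h.le).2 (x := t1) ht1 (y := t3) ht3 hl0.le
      (sub_pos.mpr hl1).le (by ring)
    simp only [smul_eq_mul] at a1 a2
    rw [← hs] at a1
    rw [← ht] at a2
    nlinarith [mul_lt_mul_of_pos_left a1 h1, mul_le_mul_of_nonneg_left a2 h2.le]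
  · exact h
  · exfalso
    have a1 := (strictConvexOn_rpow h).2 (x := s1) hs1 (y := s3) hs3 hne hl0
      (sub_pos.mpr hl1) (by ring)
    have a2 := (convexOn_rpow h.le).2 (x := t1) ht1 (y := t3) ht3 hl0.le
      (sub_pos.mpr hl1).le (by ring)
    simp only [smul_eq_mul] at a1 a2
    rw [← hs] at a1
    rw [← ht] at a2
    nlinarith [mul_lt_mul_of_pos_left a1 h1, mul_le_mul_of_nonneg_left a2 h2.le]

theorem line_frequently {ι : Type} (M : Finset ι) (P : ι → ℕ → Prop)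
    (h : ∀ᶠ N in atTop, ∃ m ∈ M, P m N) : ∃ m ∈ M, ∃ᶠ N in atTop, P m N := by
  by_contra hc
  push Not at hc
  have h2 : ∀ᶠ N in atTop, ∀ m ∈ M, ¬ P m N := by
    rw [eventually_all_finset]
    exact hc
  obtain ⟨N, ⟨m, hm, h3⟩, h4⟩ := (h.and h2).exists
  exact h4 m hm h3

/-- the boundary point over `s = 1 / c` lies on a line of the family -/
theorem line_point (κ₁ κ₂ θ : ℝ) (h2 : 0 < κ₂) (hθ : 0 < θ)
    (u : ℕ → ℕ → ℕ → ℤ)
    (hu0 : ∀ a b c, 0 < a → 0 < b → 0 < c → 0 ≤ u a b c)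
    (hu : ∀ a b c, 0 < a → 0 < b → 0 < c →
      (u a b c = 0 ↔ κ₁ * ((a : ℝ) / c) ^ θ + κ₂ * ((b : ℝ) / c) ^ θ ≤ 1))
    (M : Finset (ℤ × ℤ × ℤ))
    (hM : ∀ a b c, 0 < a → 0 < b → 0 < c → ∃ m ∈ M, u a b c = m.1 * a + m.2.1 * b + m.2.2 * c)
    (C : ℤ) (hC : ∀ a b c, 0 < a → 0 < b → 0 < c → u a (b + 1) c - u a b c ≤ C)
    (c : ℕ) (hc : 0 < c) (hcκ : κ₁ * ((1 : ℝ) / c) ^ θ < 1) :
    ∃ m ∈ M, m.2.1 ≠ 0 ∧ ∃ T : ℝ, 0 < T ∧ κ₁ * ((1 : ℝ) / c) ^ θ + κ₂ * T ^ θ = 1 ∧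
      (m.1 : ℝ) * (1 / c) + m.2.1 * T + m.2.2 = 0 := by
  have hcR : (0 : ℝ) < c := by exact_mod_cast hc
  set X : ℝ := (1 - κ₁ * ((1 : ℝ) / c) ^ θ) / κ₂ with hX
  have hXpos : 0 < X := div_pos (by linarith) h2
  set T : ℝ := X ^ (1 / θ) with hT
  have hTpos : 0 < T := Real.rpow_pos_of_pos hXpos _
  have hTθ : T ^ θ = X := by
    rw [hT, ← Real.rpow_mul hXpos.le, one_div, inv_mul_cancel₀ hθ.ne', Real.rpow_one]
  have hκX : κ₂ * X = 1 - κ₁ * ((1 : ℝ) / c) ^ θ := by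
    rw [hX]; field_simp
  -- zero set
  have hz : ∀ N b : ℕ, 0 < N → 0 < b → (u N b (c * N) = 0 ↔ (b : ℝ) ≤ T * c * N) := by
    intro N b hN hb
    rw [hu N b (c * N) hN hb (Nat.mul_pos hc hN)]
    have hNR : (0 : ℝ) < N := by exact_mod_cast hN
    have e1 : (N : ℝ) / ((c * N : ℕ) : ℝ) = 1 / c := by
      push_cast; field_simp
    rw [e1]
    have e2 : κ₁ * ((1 : ℝ) / c) ^ θ + κ₂ * ((b : ℝ) / ((c * N : ℕ) : ℝ)) ^ θ ≤ 1 ↔
        ((b : ℝ) / ((c * N : ℕ) : ℝ)) ^ θ ≤ T ^ θ := by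
      rw [hTθ]
      constructor
      · intro h
        exact le_of_mul_le_mul_left (by linarith) h2
      · intro h
        have := mul_le_mul_of_nonneg_left h h2.le
        linarith
    rw [e2, Real.rpow_le_rpow_iff (by positivity) hTpos.le hθ]
    push_cast
    rw [div_le_iff₀ (by positivity)]
    constructor <;> intro h <;> linarith
  set m : ℕ → ℕ := fun N => ⌊T * c * N⌋₊ + 1 with hm
  have hTc : 0 < T * c := by positivity
  -- bounds for the value at the first positive point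
  have hval : ∀ᶠ N : ℕ in atTop, 0 < N ∧ 1 ≤ u N (m N) (c * N) ∧ u N (m N) (c * N) ≤ C := by
    have hlim : Tendsto (fun N : ℕ => T * c * (N : ℝ)) atTop atTop :=
      Tendsto.const_mul_atTop hTc tendsto_natCast_atTop_atTop
    filter_upwards [hlim.eventually_ge_atTop 1, eventually_gt_atTop 0] with N hN hN0
    have hfl : 0 < ⌊T * c * (N:ℝ)⌋₊ := Nat.floor_pos.mpr hN
    have e0 : u N (⌊T * c * (N:ℝ)⌋₊) (c * N) = 0 :=
      (hz N _ hN0 hfl).mpr (Nat.floor_le (by positivity))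
    have e1 : u N (m N) (c * N) ≠ 0 := by
      intro h
      have := (hz N (m N) hN0 (Nat.succ_pos _)).mp h
      have h3 := Nat.lt_floor_add_one (T * c * (N:ℝ))
      simp only [hm] at this
      push_cast at this
      linarith
    have e2 := hu0 N (m N) (c * N) hN0 (Nat.succ_pos _) (Nat.mul_pos hc hN0)
    have e3 := hC N (⌊T * c * (N:ℝ)⌋₊) (c * N) hN0 hfl (Nat.mul_pos hc hN0)
    rw [e0, sub_zero] at e3
    exact ⟨hN0, by omega, e3⟩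
  have hex : ∀ᶠ N : ℕ in atTop, ∃ w ∈ M, (0 < N ∧ 1 ≤ w.1 * N + w.2.1 * (m N) + w.2.2 * ((c * N : ℕ) : ℤ) ∧
      w.1 * N + w.2.1 * (m N) + w.2.2 * ((c * N : ℕ) : ℤ) ≤ C) := by
    filter_upwards [hval] with N hN
    obtain ⟨w, hw, e⟩ := hM N (m N) (c * N) hN.1 (Nat.succ_pos _) (Nat.mul_pos hc hN.1)
    rw [e] at hN
    exact ⟨w, hw, hN⟩
  obtain ⟨w, hw, hfr⟩ := line_frequently M _ hex
  refine ⟨w, hw, ?_, T, hTpos, ?_, ?_⟩
  · -- β ≠ 0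
    intro hβ
    obtain ⟨N, hN, h3⟩ := (frequently_atTop.mp hfr) (C.toNat + 1)
    rw [hβ] at h3
    obtain ⟨hN0, h4, h5⟩ := h3
    push_cast at h4 h5
    have h6 : w.1 * (N:ℤ) + 0 * (m N : ℤ) + w.2.2 * ((c:ℤ) * N) = (w.1 + w.2.2 * c) * N := by ring
    rw [h6] at h4 h5
    have hNZ : (0:ℤ) < N := by exact_mod_cast hN0
    have h7 : 1 ≤ w.1 + w.2.2 * c := by
      by_contra hlt
      push Not at hlt
      have : w.1 + w.2.2 * c ≤ 0 := by omega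
      nlinarith
    have h8 : (N : ℤ) ≤ (w.1 + w.2.2 * c) * N := by nlinarith
    have h9 : (C.toNat : ℤ) + 1 ≤ N := by exact_mod_cast hN
    have h10 := Int.self_le_toNat C
    linarith
  · rw [hTθ, hκX]; ring
  · -- limit
    set g : ℕ → ℝ := fun N => (w.1 : ℝ) + w.2.1 * ((m N : ℝ) / N) + w.2.2 * c with hg
    have hmlim : Tendsto (fun N : ℕ => (m N : ℝ) / N) atTop (𝓝 (T * c)) := by
      have a1 : Tendsto (fun N : ℕ => ((⌊T * c * (N:ℝ)⌋₊ : ℕ) : ℝ) / N) atTop (𝓝 (T * c)) := by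
        have := tendsto_nat_floor_mul_div_atTop (R := ℝ) (a := T * c) hTc.le
        exact this.comp tendsto_natCast_atTop_atTop
      have a2 : Tendsto (fun N : ℕ => (1 : ℝ) / N) atTop (𝓝 0) := tendsto_one_div_atTop_nhds_zero_nat
      have a3 := a1.add a2
      rw [add_zero] at a3
      refine a3.congr fun N => ?_
      simp only [hm]
      push_cast
      rw [add_div]
    have hglim : Tendsto g atTop (𝓝 ((w.1 : ℝ) + w.2.1 * (T * c) + w.2.2 * c)) :=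
      ((hmlim.const_mul _).const_add _).add_const _
    have hglim2 : Tendsto (fun N : ℕ => |g N| - (C : ℝ) / N) atTop
        (𝓝 (|(w.1 : ℝ) + w.2.1 * (T * c) + w.2.2 * c| - 0)) :=
      hglim.abs.sub (tendsto_const_div_atTop_nhds_zero_nat (C : ℝ))
    rw [sub_zero] at hglim2
    have hzero : (w.1 : ℝ) + w.2.1 * (T * c) + w.2.2 * c = 0 := by
      by_contra hne
      have hpos := abs_pos.mpr hne
      have hev := hglim2.eventually_const_lt hpos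
      obtain ⟨N, ⟨hN0, h4, h5⟩, h6⟩ := (hfr.and_eventually hev).exists
      have hNR : (0:ℝ) < N := by exact_mod_cast hN0
      have h7 : g N = ((w.1 * N + w.2.1 * (m N) + w.2.2 * ((c * N : ℕ) : ℤ) : ℤ) : ℝ) / N := by
        simp only [hg]
        push_cast
        field_simp
      have h8 : (1 : ℝ) ≤ ((w.1 * N + w.2.1 * (m N) + w.2.2 * ((c * N : ℕ) : ℤ) : ℤ) : ℝ) := by
        exact_mod_cast h4
      have h9 : ((w.1 * N + w.2.1 * (m N) + w.2.2 * ((c * N : ℕ) : ℤ) : ℤ) : ℝ) ≤ (C:ℝ) := by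
        exact_mod_cast h5
      have h10 : 0 ≤ g N := by
        rw [h7]; positivity
      have h11 : g N ≤ (C : ℝ) / N := by
        rw [h7]
        exact div_le_div_of_nonneg_right h9 hNR.le
      rw [abs_of_nonneg h10] at h6
      linarith
    have hcne : (c : ℝ) ≠ 0 := hcR.ne'
    field_simp
    linarith

/-- If the region `κ₁ s ^ θ + κ₂ t ^ θ ≤ 1` is the zero set of a piecewise integer-linear function,
then `θ = 1` and `κ₁, κ₂` are rational. -/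
theorem line_pure (κ₁ κ₂ θ : ℝ) (h1 : 0 < κ₁) (h2 : 0 < κ₂) (hθ : 0 < θ)
    (u : ℕ → ℕ → ℕ → ℤ)
    (hu0 : ∀ a b c, 0 < a → 0 < b → 0 < c → 0 ≤ u a b c)
    (hu : ∀ a b c, 0 < a → 0 < b → 0 < c →
      (u a b c = 0 ↔ κ₁ * ((a : ℝ) / c) ^ θ + κ₂ * ((b : ℝ) / c) ^ θ ≤ 1))
    (M : Finset (ℤ × ℤ × ℤ))
    (hM : ∀ a b c, 0 < a → 0 < b → 0 < c → ∃ m ∈ M, u a b c = m.1 * a + m.2.1 * b + m.2.2 * c)
    (C : ℤ) (hC : ∀ a b c, 0 < a → 0 < b → 0 < c → u a (b + 1) c - u a b c ≤ C) :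
    θ = 1 ∧ ∃ p q r : ℕ, 0 < p ∧ 0 < q ∧ 0 < r ∧ (p : ℝ) * κ₁ = r ∧ (q : ℝ) * κ₂ = r := by
  have hsmall : ∀ᶠ c : ℕ in atTop, 0 < c ∧ κ₁ * ((1 : ℝ) / c) ^ θ < 1 := by
    have a1 : Tendsto (fun c : ℕ => ((1 : ℝ) / c)) atTop (𝓝 0) := tendsto_one_div_atTop_nhds_zero_nat
    have a2 : Tendsto (fun x : ℝ => κ₁ * x ^ θ) (𝓝 0) (𝓝 (κ₁ * 0 ^ θ)) := by
      apply Tendsto.const_mul
      exact (Real.continuousAt_rpow_const 0 θ (Or.inr hθ.le)).tendsto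
    rw [Real.zero_rpow hθ.ne', mul_zero] at a2
    have a3 := (a2.comp a1).eventually_lt_const (zero_lt_one' ℝ)
    filter_upwards [a3, eventually_gt_atTop 0] with c hc hc0
    exact ⟨hc0, hc⟩
  have hex : ∀ᶠ c : ℕ in atTop, ∃ m ∈ M, (0 < c ∧ m.2.1 ≠ 0 ∧ ∃ T : ℝ, 0 < T ∧
      κ₁ * ((1 : ℝ) / c) ^ θ + κ₂ * T ^ θ = 1 ∧ (m.1 : ℝ) * (1 / c) + m.2.1 * T + m.2.2 = 0) := by
    filter_upwards [hsmall] with c hc
    obtain ⟨m, hm, h3, h4⟩ := line_point κ₁ κ₂ θ h2 hθ u hu0 hu M hM C hC c hc.1 hc.2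
    exact ⟨m, hm, hc.1, h3, h4⟩
  obtain ⟨m, -, hfr⟩ := line_frequently M _ hex
  obtain ⟨c1, -, hc1, hβ, T1, hT1, e1, l1⟩ := (frequently_atTop.mp hfr) 0
  obtain ⟨c2, hc12, hc2, -, T2, hT2, e2, l2⟩ := (frequently_atTop.mp hfr) (c1 + 1)
  obtain ⟨c3, hc23, hc3, -, T3, hT3, e3, l3⟩ := (frequently_atTop.mp hfr) (c2 + 1)
  have hβR : (m.2.1 : ℝ) ≠ 0 := by exact_mod_cast hβ
  have c1R : (0:ℝ) < c1 := by exact_mod_cast hc1
  have c2R : (0:ℝ) < c2 := by exact_mod_cast hc2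
  have c3R : (0:ℝ) < c3 := by exact_mod_cast hc3
  have hc12R : (c1:ℝ) < c2 := by exact_mod_cast hc12
  have hc23R : (c2:ℝ) < c3 := by exact_mod_cast hc23
  set s1 : ℝ := 1 / c1 with hs1
  set s2 : ℝ := 1 / c2 with hs2
  set s3 : ℝ := 1 / c3 with hs3
  have s12 : s2 < s1 := one_div_lt_one_div_of_lt c1R hc12R
  have s23 : s3 < s2 := one_div_lt_one_div_of_lt c2R hc23R
  have s3p : 0 < s3 := by positivity
  have s1p : 0 < s1 := by positivity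
  have h13 : 0 < s1 - s3 := by linarith
  set l : ℝ := (s2 - s3) / (s1 - s3) with hl
  have hlmul : l * (s1 - s3) = s2 - s3 := by
    rw [hl]; field_simp
  have hl0 : 0 < l := div_pos (by linarith) h13
  have hl1 : l < 1 := by
    rw [hl, div_lt_one h13]; linarith
  have hsl : s2 = l * s1 + (1 - l) * s3 := by linarith
  have htl : T2 = l * T1 + (1 - l) * T3 := by
    apply mul_left_cancel₀ hβR
    have a1 : (m.2.1:ℝ) * T1 = -(m.1 * s1 + m.2.2) := by linarith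
    have a2 : (m.2.1:ℝ) * T2 = -(m.1 * s2 + m.2.2) := by linarith
    have a3 : (m.2.1:ℝ) * T3 = -(m.1 * s3 + m.2.2) := by linarith
    have : (m.2.1:ℝ) * (l * T1 + (1 - l) * T3) = l * (m.2.1 * T1) + (1 - l) * (m.2.1 * T3) := by ring
    rw [this, a1, a2, a3]
    nth_rewrite 1 [hsl]
    ring
  have hθ1 : θ = 1 := line_three h1 h2 hθ s1p.le s3p.le hT1.le hT3.le hl0 hl1 (by linarith) hsl htl
    e1 e2 e3
  refine ⟨hθ1, ?_⟩
  rw [hθ1] at e1 e3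
  simp only [Real.rpow_one] at e1 e3
  -- κ₂ α = κ₁ β, κ₂ γ = - β
  have b1 : κ₂ * m.1 = κ₁ * m.2.1 := by
    have : (κ₂ * m.1 - κ₁ * m.2.1) * (s1 - s3) = 0 := by
      linear_combination κ₂ * l1 - κ₂ * l3 - (m.2.1 : ℝ) * e1 + (m.2.1:ℝ) * e3
    rcases mul_eq_zero.mp this with h | h
    · linarith
    · linarith
  have b2 : κ₂ * m.2.2 = - m.2.1 := by
    linear_combination κ₂ * l1 - (m.2.1 : ℝ) * e1 - s1 * b1
  have b3 : κ₁ * m.2.2 = - m.1 := by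
    apply mul_left_cancel₀ h2.ne'
    linear_combination κ₁ * b2 + b1
  have hγ : m.2.2 ≠ 0 := by
    intro h
    rw [h] at b2
    simp at b2
    exact hβ b2
  have hα : m.1 ≠ 0 := by
    intro h
    rw [h] at b1
    simp at b1
    rcases b1 with h3 | h3
    · exact h1.ne' h3
    · exact hβ h3
  have hγR : (0:ℝ) < |(m.2.2 : ℝ)| := abs_pos.mpr (by exact_mod_cast hγ)
  have d1 : |(m.2.2:ℝ)| * κ₁ = |(m.1:ℝ)| := by
    rw [← abs_neg (m.1:ℝ), ← b3, abs_mul, abs_of_pos h1]; ring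
  have d2 : |(m.2.2:ℝ)| * κ₂ = |(m.2.1:ℝ)| := by
    rw [← abs_neg (m.2.1:ℝ), ← b2, abs_mul, abs_of_pos h2]; ring
  have cast_abs : ∀ z : ℤ, ((z.natAbs : ℕ) : ℝ) = |(z:ℝ)| := fun z => by
    rw [Nat.cast_natAbs]; push_cast; rfl
  refine ⟨m.2.1.natAbs * m.2.2.natAbs, m.1.natAbs * m.2.2.natAbs, m.1.natAbs * m.2.1.natAbs,
    Nat.mul_pos (Int.natAbs_pos.mpr hβ) (Int.natAbs_pos.mpr hγ),
    Nat.mul_pos (Int.natAbs_pos.mpr hα) (Int.natAbs_pos.mpr hγ),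
    Nat.mul_pos (Int.natAbs_pos.mpr hα) (Int.natAbs_pos.mpr hβ), ?_, ?_⟩
  · rw [Nat.cast_mul, Nat.cast_mul, cast_abs, cast_abs, cast_abs]
    linear_combination |(m.2.1:ℝ)| * d1
  · rw [Nat.cast_mul, Nat.cast_mul, cast_abs, cast_abs, cast_abs]
    linear_combination |(m.1:ℝ)| * d2

end Pool.H84.LG
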