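import Mathlib

set_option autoImplicit false

namespace Pool.H84.LG

/-- binary digit sum on `ℕ` -/
def lowPure_s (n : ℕ) : ℤ := ((Nat.digits 2 n).sum : ℕ)

theorem lowPure_s_even (n : ℕ) : lowPure_s (2 * n) = lowPure_s n := by
  unfold lowPure_s
  rcases Nat.eq_zero_or_pos n with h | h
  · subst h; simp
  · have := Nat.digits_add 2 (by norm_num) 0 n (by norm_num) (Or.inr h.ne')
    rw [zero_add] at this
    rw [this]; simp

theorem lowPure_s_odd (n : ℕ) : lowPure_s (2 * n + 1) = lowPure_s n + 1 := by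
  unfold lowPure_s
  have := Nat.digits_add 2 (by norm_num) 1 n (by norm_num) (Or.inl one_ne_zero)
  rw [add_comm] at this
  rw [this]; simp [add_comm]

/-- binary digit sum on `ℤ`, symmetric under `x ↦ -1 - x` -/
def lowPure_u (x : ℤ) : ℤ := if 0 ≤ x then lowPure_s x.toNat else lowPure_s (-1 - x).toNat

theorem lowPure_u_rec (x : ℤ) : lowPure_u (2 * x) + lowPure_u (2 * x + 1) = 2 * lowPure_u x + 1 := by
  unfold lowPure_u
  by_cases h : 0 ≤ x
  · rw [if_pos h, if_pos (by omega), if_pos (by omega)]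
    have h1 : (2 * x).toNat = 2 * x.toNat := by omega
    have h2 : (2 * x + 1).toNat = 2 * x.toNat + 1 := by omega
    rw [h1, h2, lowPure_s_even, lowPure_s_odd]
    ring
  · rw [if_neg h, if_neg (by omega), if_neg (by omega)]
    have h1 : (-1 - 2 * x).toNat = 2 * (-1 - x).toNat + 1 := by omega
    have h2 : (-1 - (2 * x + 1)).toNat = 2 * (-1 - x).toNat := by omega
    rw [h1, h2, lowPure_s_even, lowPure_s_odd]
    ring

/-- The contradictory system of functional equations on `ℤ → ℤ`. -/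
theorem low_pure (F12 F23 F13 G : (ℤ → ℤ) → ℝ) (c c' : ℝ)
    (h1 : ∀ u v : ℤ → ℤ, F13 (fun x => u x + v x) = F12 u + F23 v)
    (h2 : ∀ u : ℤ → ℤ, G u = c + F23 (fun x => u (2 * x)))
    (h3 : ∀ u : ℤ → ℤ, G (fun x => u x + u (x + 1)) = c' + 2 * F12 u)
    (h : ℤ) (hpos : 0 < F12 (fun _ => h)) (hneg : F12 (fun _ => -h) < 0) : False := by
  set z : ℤ → ℤ := fun _ => 0 with hz
  have e1 : ∀ u : ℤ → ℤ, F13 u = F12 u + F23 z := fun u => by
    have := h1 u z
    simpa [hz] using this
  have e2 : ∀ u : ℤ → ℤ, F13 u = F12 z + F23 u := fun u => by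
    have := h1 z u
    simpa [hz] using this
  have e3 : ∀ u v : ℤ → ℤ, F12 (fun x => u x + v x) = F12 u + F12 v - F12 z := fun u v => by
    have a1 := h1 u v
    have a2 := e1 (fun x => u x + v x)
    have a3 := e1 v
    have a4 := e2 v
    linarith
  have e4 : ∀ u : ℤ → ℤ, c + F23 (fun x => u (2 * x) + u (2 * x + 1)) = c' + 2 * F12 u :=
    fun u => by
      rw [← h3 u, h2]
  have e5 : ∀ u : ℤ → ℤ, F23 u - F23 z = F12 u - F12 z := fun u => by
    have a1 := e1 u
    have a2 := e2 u
    linarith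
  have e6 : c + F23 z = c' + 2 * F12 z := by
    have := e4 z
    simpa [hz] using this
  have e7 : ∀ u : ℤ → ℤ, F12 (fun x => u (2 * x) + u (2 * x + 1)) - F12 z =
      2 * (F12 u - F12 z) := fun u => by
    have a1 := e4 u
    have a2 := e5 (fun x => u (2 * x) + u (2 * x + 1))
    linarith
  have e8 : F12 (fun _ => 1) = F12 z := by
    have a1 := e7 lowPure_u
    have a2 : (fun x => lowPure_u (2 * x) + lowPure_u (2 * x + 1)) =
        fun x => (lowPure_u x + lowPure_u x) + (fun _ => (1:ℤ)) x := by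
      funext x
      rw [lowPure_u_rec]; ring
    rw [a2, e3 (fun x => lowPure_u x + lowPure_u x) (fun _ => 1), e3 lowPure_u lowPure_u] at a1
    linarith
  have e9 : ∀ n : ℕ, F12 (fun _ => (n : ℤ)) = F12 z := by
    intro n
    induction n with
    | zero => rfl
    | succ n ih =>
      have := e3 (fun _ => (n:ℤ)) (fun _ => 1)
      push_cast
      rw [this, ih, e8]; ring
  have e10 : ∀ n : ℕ, F12 (fun _ => -(n : ℤ)) = F12 z := by
    intro n
    have := e3 (fun _ => (n:ℤ)) (fun _ => -(n:ℤ))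
    rw [e9] at this
    have h4 : (fun _ : ℤ => (n:ℤ) + -(n:ℤ)) = z := by
      funext x; simp [hz]
    rw [h4] at this
    linarith
  rcases Int.eq_nat_or_neg h with ⟨n, hn | hn⟩
  · subst hn
    rw [e9] at hpos
    rw [e10] at hneg
    linarith
  · subst hn
    rw [e10] at hpos
    rw [neg_neg, e9] at hneg
    linarith

end Pool.H84.LG
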