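import Pool.Agent.H84.LG.Top
import Pool.Agent.H84.LG.LowPure

set_option autoImplicit false

namespace Pool.H84.LG

/-- summation on `ℤ` -/
theorem exists_phi (ψ : ℤ → ℤ) : ∃ φ : ℤ → ℤ, ∀ x, φ x - φ (x + 1) = ψ x := by
  refine ⟨fun x => (∑ t ∈ Finset.Ico x 0, ψ t) - (∑ t ∈ Finset.Ico 0 x, ψ t), fun x => ?_⟩
  rcases lt_or_ge x 0 with h | h
  · have h1 : Finset.Ico x 0 = insert x (Finset.Ico (x + 1) 0) := by
      ext t; simp only [Finset.mem_insert, Finset.mem_Ico]; omega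
    have h2 : Finset.Ico 0 x = ∅ := by
      ext t; simp only [Finset.mem_Ico, Finset.notMem_empty, iff_false]; omega
    have h3 : Finset.Ico 0 (x + 1) = ∅ := by
      ext t; simp only [Finset.mem_Ico, Finset.notMem_empty, iff_false]; omega
    simp only
    rw [h1, h2, h3, Finset.sum_insert (by simp)]
    simp
  · have h1 : Finset.Ico 0 (x + 1) = insert x (Finset.Ico 0 x) := by
      ext t; simp only [Finset.mem_insert, Finset.mem_Ico]; omega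
    have h2 : Finset.Ico x 0 = ∅ := by
      ext t; simp only [Finset.mem_Ico, Finset.notMem_empty, iff_false]; omega
    have h3 : Finset.Ico (x + 1) 0 = ∅ := by
      ext t; simp only [Finset.mem_Ico, Finset.notMem_empty, iff_false]; omega
    simp only
    rw [h1, h2, h3, Finset.sum_insert (by simp)]
    simp

/-- at the ends: if `Y ⊔ 1` is not in `Q` at exponents `(h+1, h)`, `h` large, then it is not in `Q0` at
`(h, 1), (0, 1)`, `h` large -/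
theorem Dt.ends_not {I A : Type} [CommGroup A] [Lattice A] (D : Dt I A) (i j k : I) (hij : i ≠ j) (Y : A)
    (hY : ∀ h : ℤ, 0 < h → Y ⊔ 1 ∉ (D.Q (pt i j k (Hh.e (h + 1)) (Hh.e h) 1)).1) :
    ∃ N : ℤ, ∀ h : ℤ, N ≤ h → Y ⊔ 1 ∉ (D.Q0 (pt i j k (Hh.cst h 1) (Hh.e 1) 1)).1 := by
  obtain ⟨P, p, r, N, hN⟩ := ends i j k hij (D.gy (Y ⊔ 1))
  refine ⟨max (max N 1) (|r| + 1), fun h hh => ?_⟩
  have h1 : N ≤ h := by omega
  have h2 : 0 < h := by omega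
  have h3 : |r| + 1 ≤ h := by omega
  obtain ⟨e1, e2⟩ := hN h h1
  rw [D.mem_Q0, e1]
  rintro ⟨e3, e4⟩
  simp only [Hh.cst_n, Hh.cst_f] at e3 e4
  have e5 := hY h h2
  rw [D.mem_Q, e2, e3] at e5
  have hp : p ≠ 0 := by simpa using e5
  have h4 : |p * h| = |r| := by
    have : p * h = -r := by linarith
    rw [this, abs_neg]
  rw [abs_mul] at h4
  have h5 : 1 ≤ |p| := Int.one_le_abs hp
  have h6 : |h| = h := abs_of_pos h2
  rw [h6] at h4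
  nlinarith

/-- hypotheses on a normalised triple -/
structure Tri {I A : Type} [CommGroup A] [Lattice A] (D : Dt I A) (i j k : I) (Bi Bj Bk : A) : Prop where
  hij : i ≠ j
  hik : i ≠ k
  hjk : j ≠ k
  tij : ∀ (f g h : Hh), 0 < f.n → 0 < g.n → 0 < h.n → ∀ s t : ℤ,
    ((Bi ^ s * Bj ^ t) ⊔ 1 ∈ (D.Q (pt i j k f g h)).1 ↔ s * f.n + t * g.n ≤ 0)
  tjk : ∀ (f g h : Hh), 0 < f.n → 0 < g.n → 0 < h.n → ∀ s t : ℤ,
    ((Bj ^ s * Bk ^ t) ⊔ 1 ∈ (D.Q (pt i j k f g h)).1 ↔ s * g.n + t * h.n ≤ 0)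
  tik : ∀ (f g h : Hh), 0 < f.n → 0 < g.n → 0 < h.n → ∀ s t : ℤ,
    ((Bi ^ s * Bk ^ t) ⊔ 1 ∈ (D.Q (pt i j k f g h)).1 ↔ s * f.n + t * h.n ≤ 0)
  iij : ∀ (f g h h' : Hh) (s t r : ℤ),
    ((Bi ^ s * Bj ^ t * D.bz ^ r) ⊔ 1 ∈ (D.Q (pt i j k f g h)).1 ↔
      (Bi ^ s * Bj ^ t * D.bz ^ r) ⊔ 1 ∈ (D.Q (pt i j k f g h')).1) ∧
    ((Bi ^ s * Bj ^ t * D.bz ^ r) ⊔ 1 ∈ (D.Q0 (pt i j k f g h)).1 ↔
      (Bi ^ s * Bj ^ t * D.bz ^ r) ⊔ 1 ∈ (D.Q0 (pt i j k f g h')).1)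
  iik : ∀ (f g g' h : Hh) (s t r : ℤ),
    ((Bi ^ s * Bk ^ t * D.bz ^ r) ⊔ 1 ∈ (D.Q (pt i j k f g h)).1 ↔
      (Bi ^ s * Bk ^ t * D.bz ^ r) ⊔ 1 ∈ (D.Q (pt i j k f g' h)).1) ∧
    ((Bi ^ s * Bk ^ t * D.bz ^ r) ⊔ 1 ∈ (D.Q0 (pt i j k f g h)).1 ↔
      (Bi ^ s * Bk ^ t * D.bz ^ r) ⊔ 1 ∈ (D.Q0 (pt i j k f g' h)).1)
  ijk : ∀ (f f' g h : Hh) (s t r : ℤ),
    ((Bj ^ s * Bk ^ t * D.bz ^ r) ⊔ 1 ∈ (D.Q (pt i j k f g h)).1 ↔
      (Bj ^ s * Bk ^ t * D.bz ^ r) ⊔ 1 ∈ (D.Q (pt i j k f' g h)).1) ∧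
    ((Bj ^ s * Bk ^ t * D.bz ^ r) ⊔ 1 ∈ (D.Q0 (pt i j k f g h)).1 ↔
      (Bj ^ s * Bk ^ t * D.bz ^ r) ⊔ 1 ∈ (D.Q0 (pt i j k f' g h)).1)

/-- `val` at `bz` only depends on the two-term memberships -/
theorem val_congr {A : Type} [CommGroup A] [Lattice A] (K K' : CLS A) (u B B' : A) (s t : ℤ)
    (h : ∀ s t r : ℤ, (B ^ s * B' ^ t * u ^ r) ⊔ 1 ∈ K.1 ↔ (B ^ s * B' ^ t * u ^ r) ⊔ 1 ∈ K'.1) :
    val K u (B ^ s * B' ^ t) = val K' u (B ^ s * B' ^ t) := by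
  unfold val
  congr 1
  ext x
  have h1 : ∀ (q : ℕ) (r : ℤ), (B ^ s * B' ^ t) ^ (q : ℤ) * u ^ (-r) =
      B ^ (s * q) * B' ^ (t * q) * u ^ (-r) := by
    intro q r
    rw [mul_zpow, zpow_mul, zpow_mul]
  constructor
  · rintro ⟨q, r, hq, hm, hx⟩
    refine ⟨q, r, hq, ?_, hx⟩
    rw [h1] at hm ⊢
    exact (h _ _ _).mp hm
  · rintro ⟨q, r, hq, hm, hx⟩
    refine ⟨q, r, hq, ?_, hx⟩
    rw [h1] at hm ⊢
    exact (h _ _ _).mpr hm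

namespace Tri
variable {I A : Type} [CommGroup A] [Lattice A] [MulLeftMono A] {D : Dt I A} {i j k : I} {Bi Bj Bk : A}

theorem contradiction (T : Tri D i j k Bi Bj Bk) : False := by
  have hij := T.hij
  have hik := T.hik
  have hjk := T.hjk
  set W : (I → Hh) → A → ℝ := fun ω x => val (D.Q0 ω) D.bz x with hW
  -- membership in Q
  have mij : ∀ (f g h : Hh) (s t : ℤ), 0 < f.n → 0 < g.n → 0 < h.n → s * f.n + t * g.n = 0 →
      Bi ^ s * Bj ^ t ∈ (D.Q (pt i j k f g h)).1 := by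
    intro f g h s t hf hg hh h0
    rw [mem_iff_parts]
    refine ⟨(T.tij f g h hf hg hh s t).mpr h0.le, ?_⟩
    have e : (Bi ^ s * Bj ^ t)⁻¹ = Bi ^ (-s) * Bj ^ (-t) := by
      rw [mul_inv, zpow_neg, zpow_neg]
    rw [e]
    exact (T.tij f g h hf hg hh _ _).mpr (by linarith)
  have mjk : ∀ (f g h : Hh) (s t : ℤ), 0 < f.n → 0 < g.n → 0 < h.n → s * g.n + t * h.n = 0 →
      Bj ^ s * Bk ^ t ∈ (D.Q (pt i j k f g h)).1 := by
    intro f g h s t hf hg hh h0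
    rw [mem_iff_parts]
    refine ⟨(T.tjk f g h hf hg hh s t).mpr h0.le, ?_⟩
    have e : (Bj ^ s * Bk ^ t)⁻¹ = Bj ^ (-s) * Bk ^ (-t) := by
      rw [mul_inv, zpow_neg, zpow_neg]
    rw [e]
    exact (T.tjk f g h hf hg hh _ _).mpr (by linarith)
  have mik : ∀ (f g h : Hh) (s t : ℤ), 0 < f.n → 0 < g.n → 0 < h.n → s * f.n + t * h.n = 0 →
      Bi ^ s * Bk ^ t ∈ (D.Q (pt i j k f g h)).1 := by
    intro f g h s t hf hg hh h0
    rw [mem_iff_parts]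
    refine ⟨(T.tik f g h hf hg hh s t).mpr h0.le, ?_⟩
    have e : (Bi ^ s * Bk ^ t)⁻¹ = Bi ^ (-s) * Bk ^ (-t) := by
      rw [mul_inv, zpow_neg, zpow_neg]
    rw [e]
    exact (T.tik f g h hf hg hh _ _).mpr (by linarith)
  -- independence of the values
  have vij : ∀ (f g h h' : Hh) (s t : ℤ), W (pt i j k f g h) (Bi ^ s * Bj ^ t) =
      W (pt i j k f g h') (Bi ^ s * Bj ^ t) := by
    intro f g h h' s t
    exact val_congr _ _ _ _ _ _ _ (fun s t r => (T.iij f g h h' s t r).2)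
  have vik : ∀ (f g g' h : Hh) (s t : ℤ), W (pt i j k f g h) (Bi ^ s * Bk ^ t) =
      W (pt i j k f g' h) (Bi ^ s * Bk ^ t) := by
    intro f g g' h s t
    exact val_congr _ _ _ _ _ _ _ (fun s t r => (T.iik f g g' h s t r).2)
  have vjk : ∀ (f f' g h : Hh) (s t : ℤ), W (pt i j k f g h) (Bj ^ s * Bk ^ t) =
      W (pt i j k f' g h) (Bj ^ s * Bk ^ t) := by
    intro f f' g h s t
    exact val_congr _ _ _ _ _ _ _ (fun s t r => (T.ijk f f' g h s t r).2)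
  -- conjugation
  have cj : ∀ (φ : ℤ → ℤ) (f g h f' g' h' : Hh),
      (f'.n = f.n ∧ ∀ x, f'.f x = f.f x + φ x - φ (x + f.n)) →
      (g'.n = g.n ∧ ∀ x, g'.f x = g.f x + φ x - φ (x + g.n)) →
      (h'.n = h.n ∧ ∀ x, h'.f x = h.f x + φ x - φ (x + h.n)) →
      ∀ x, W (pt i j k f' g' h') x = W (pt i j k f g h) x := by
    intro φ f g h f' g' h' hf hg hh x
    simp only [hW]
    rw [D.Q0_conj φ (pt i j k f g h) (pt i j k f' g' h')]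
    intro m
    by_cases hm1 : m = i
    · rw [hm1, pt_i, pt_i]; exact hf
    by_cases hm2 : m = j
    · rw [hm2, pt_j hij, pt_j hij]; exact hg
    by_cases hm3 : m = k
    · rw [hm3, pt_k hik hjk, pt_k hik hjk]; exact hh
    rw [pt_of hm1 hm2 hm3, pt_of hm1 hm2 hm3]
    exact ⟨rfl, fun x => by simp⟩
  have triv : ∀ φ : ℤ → ℤ, (1 : Hh).n = (1 : Hh).n ∧ ∀ x, (1 : Hh).f x = (1 : Hh).f x + φ x - φ (x + (1 : Hh).n) :=
    fun φ => ⟨rfl, fun x => by simp⟩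
  -- the four functions
  set F12 : (ℤ → ℤ) → ℝ := fun u => W (pt i j k ⟨u, 1⟩ (Hh.e 1) 1) (Bi ^ (1 : ℤ) * Bj ^ (-1 : ℤ)) with hF12
  set F23 : (ℤ → ℤ) → ℝ := fun v => W (pt i j k 1 ⟨v, 1⟩ (Hh.e 1)) (Bj ^ (1 : ℤ) * Bk ^ (-1 : ℤ)) with hF23
  set F13 : (ℤ → ℤ) → ℝ := fun u => W (pt i j k ⟨u, 1⟩ 1 (Hh.e 1)) (Bi ^ (1 : ℤ) * Bk ^ (-1 : ℤ)) with hF13
  set G : (ℤ → ℤ) → ℝ := fun w => W (pt i j k (Hh.e 1) 1 ⟨fun x => - w x, 2⟩) (Bi ^ (2 : ℤ) * Bk ^ (-1 : ℤ)) with hG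
  have h1 : ∀ u v : ℤ → ℤ, F13 (fun x => u x + v x) = F12 u + F23 v := by
    intro u v
    obtain ⟨φ, hφ⟩ := exists_phi (fun x => - v x)
    have e1 : F13 (fun x => u x + v x) =
        W (pt i j k ⟨fun x => u x + v x, 1⟩ ⟨v, 1⟩ (Hh.e 1)) (Bi ^ (1 : ℤ) * Bk ^ (-1 : ℤ)) := vik _ _ _ _ _ _
    have e2 : F23 v =
        W (pt i j k ⟨fun x => u x + v x, 1⟩ ⟨v, 1⟩ (Hh.e 1)) (Bj ^ (1 : ℤ) * Bk ^ (-1 : ℤ)) := vjk _ _ _ _ _ _
    have e3 : F12 u =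
        W (pt i j k ⟨fun x => u x + v x, 1⟩ ⟨v, 1⟩ (Hh.e 1)) (Bi ^ (1 : ℤ) * Bj ^ (-1 : ℤ)) := by
      rw [vij _ _ (Hh.e 1) 1]
      apply cj φ
      · refine ⟨rfl, fun x => ?_⟩
        have := hφ x
        simp only at this ⊢
        linarith
      · refine ⟨rfl, fun x => ?_⟩
        have := hφ x
        simp only [Hh.e_f] at this ⊢
        linarith
      · exact triv φ
    rw [e1, e2, e3]
    have e4 := (D.low_spec (pt i j k ⟨fun x => u x + v x, 1⟩ ⟨v, 1⟩ (Hh.e 1))).1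
      _ (mij _ _ _ 1 (-1) (by simp) (by simp) (by simp) (by simp))
      _ (mjk _ _ _ 1 (-1) (by simp) (by simp) (by simp) (by simp))
    rw [← e4]
    congr 1
    simp only [zpow_one, zpow_neg_one]
    group
  have h2 : ∀ u : ℤ → ℤ, G u = W (pt i j k (Hh.e 1) (Hh.e 2) 1) (Bi ^ (2 : ℤ) * Bj ^ (-1 : ℤ))
      + F23 (fun x => u (2 * x)) := by
    intro u
    obtain ⟨φ, hφ⟩ := exists_phi (fun x => u (2 * x))
    have e1 : G u = W (pt i j k (Hh.e 1) (Hh.e 2) ⟨fun x => - u x, 2⟩) (Bi ^ (2 : ℤ) * Bk ^ (-1 : ℤ)) :=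
      vik _ _ _ _ _ _
    have e2 : W (pt i j k (Hh.e 1) (Hh.e 2) 1) (Bi ^ (2 : ℤ) * Bj ^ (-1 : ℤ)) =
        W (pt i j k (Hh.e 1) (Hh.e 2) ⟨fun x => - u x, 2⟩) (Bi ^ (2 : ℤ) * Bj ^ (-1 : ℤ)) :=
      vij _ _ _ _ _ _
    have e3 : F23 (fun x => u (2 * x)) =
        W (pt i j k (Hh.e 1) (Hh.e 2) ⟨fun x => - u x, 2⟩) (Bj ^ (1 : ℤ) * Bk ^ (-1 : ℤ)) := by
      rw [vjk (Hh.e 1) 1]
      have e4 : W (pt i j k 1 (Hh.e 2) ⟨fun x => - u x, 2⟩) (Bj ^ (1 : ℤ) * Bk ^ (-1 : ℤ)) =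
          W (pt i j k 1 (Hh.e 1) ⟨fun x => - u (2 * x), 1⟩) (Bj ^ (1 : ℤ) * Bk ^ (-1 : ℤ)) := by
        simp only [hW]
        rw [← D.Q0_restr (pt i j k 1 (Hh.e 2) ⟨fun x => - u x, 2⟩) (pt i j k 1 (Hh.e 1) ⟨fun x => - u (2 * x), 1⟩)]
        intro m
        by_cases hm1 : m = i
        · rw [hm1, pt_i, pt_i]; exact ⟨by simp, fun x => by simp⟩
        by_cases hm2 : m = j
        · rw [hm2, pt_j hij, pt_j hij]; exact ⟨by simp, fun x => by simp⟩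
        by_cases hm3 : m = k
        · rw [hm3, pt_k hik hjk, pt_k hik hjk]; exact ⟨by simp, fun x => rfl⟩
        rw [pt_of hm1 hm2 hm3, pt_of hm1 hm2 hm3]
        exact ⟨by simp, fun x => by simp⟩
      rw [e4]
      apply cj φ
      · exact triv φ
      · refine ⟨rfl, fun x => ?_⟩
        have := hφ x
        simp only [Hh.e_f, Hh.e_n] at this ⊢
        linarith
      · refine ⟨rfl, fun x => ?_⟩
        have := hφ x
        simp only [Hh.e_f] at this ⊢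
        linarith
    rw [e1, e2, e3]
    have e4 := (D.low_spec (pt i j k (Hh.e 1) (Hh.e 2) ⟨fun x => - u x, 2⟩)).1
      _ (mij _ _ _ 2 (-1) (by simp) (by simp) (by simp) (by simp))
      _ (mjk _ _ _ 1 (-1) (by simp) (by simp) (by simp) (by simp))
    rw [← e4]
    congr 1
    simp only [zpow_one, zpow_neg_one]
    group
  have h3 : ∀ u : ℤ → ℤ, G (fun x => u x + u (x + 1)) =
      W (pt i j k 1 (Hh.e 1) (Hh.e 2)) (Bj ^ (2 : ℤ) * Bk ^ (-1 : ℤ)) + 2 * F12 u := by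
    intro u
    obtain ⟨φ, hφ⟩ := exists_phi (fun x => - u x)
    have e1 : G (fun x => u x + u (x + 1)) =
        W (pt i j k ⟨u, 1⟩ (Hh.e 1) (Hh.e 2)) (Bi ^ (2 : ℤ) * Bk ^ (-1 : ℤ)) := by
      rw [vik _ (Hh.e 1) 1]
      apply cj φ
      · refine ⟨rfl, fun x => ?_⟩
        have := hφ x
        simp only [Hh.e_f] at this ⊢
        linarith
      · exact triv φ
      · refine ⟨rfl, fun x => ?_⟩
        have h4 := hφ x
        have h5 := hφ (x + 1)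
        simp only [Hh.e_f, Hh.e_n] at h4 h5 ⊢
        rw [show x + 1 + 1 = x + 2 by ring] at h5
        linarith
    have e2 : W (pt i j k 1 (Hh.e 1) (Hh.e 2)) (Bj ^ (2 : ℤ) * Bk ^ (-1 : ℤ)) =
        W (pt i j k ⟨u, 1⟩ (Hh.e 1) (Hh.e 2)) (Bj ^ (2 : ℤ) * Bk ^ (-1 : ℤ)) := vjk _ _ _ _ _ _
    have e3 : F12 u = W (pt i j k ⟨u, 1⟩ (Hh.e 1) (Hh.e 2)) (Bi ^ (1 : ℤ) * Bj ^ (-1 : ℤ)) := vij _ _ _ _ _ _
    rw [e1, e2, e3]
    have hs := (D.low_spec (pt i j k ⟨u, 1⟩ (Hh.e 1) (Hh.e 2))).1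
    have m1 := mij ⟨u, 1⟩ (Hh.e 1) (Hh.e 2) 1 (-1) (by simp) (by simp) (by simp) (by simp)
    have m2 := mjk ⟨u, 1⟩ (Hh.e 1) (Hh.e 2) 2 (-1) (by simp) (by simp) (by simp) (by simp)
    have e4 := hs _ m2 _ (mul_mem m1 m1)
    have e5 := hs _ m1 _ m1
    simp only [hW]
    rw [two_mul, ← e5, ← e4]
    congr 1
    simp only [zpow_one, zpow_neg_one, zpow_two]
    calc Bi * Bi * Bk⁻¹ = (Bj * Bj⁻¹) * (Bj * Bj⁻¹) * (Bi * Bi * Bk⁻¹) := by simp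
      _ = _ := by ac_rfl
  -- the ends
  have hend1 : ∃ N : ℤ, ∀ h : ℤ, N ≤ h →
      (Bi ^ (1 : ℤ) * Bj ^ (-1 : ℤ)) ⊔ 1 ∉ (D.Q0 (pt i j k (Hh.cst h 1) (Hh.e 1) 1)).1 := by
    apply D.ends_not i j k hij
    intro h hh
    have e1 := (T.iij (Hh.e (h + 1)) (Hh.e h) 1 (Hh.e 1) 1 (-1) 0).1
    rw [zpow_zero, mul_one] at e1
    rw [e1, T.tij _ _ _ (by simp; omega) (by simpa using hh) (by simp)]
    simp
  have hend2 : ∃ N : ℤ, ∀ h : ℤ, N ≤ h →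
      (Bi ^ (-1 : ℤ) * Bj ^ (1 : ℤ)) ⊔ 1 ∉ (D.Q0 (pt j i k (Hh.cst h 1) (Hh.e 1) 1)).1 := by
    apply D.ends_not j i k hij.symm
    intro h hh
    rw [← pt_swap12 hij]
    have e1 := (T.iij (Hh.e h) (Hh.e (h + 1)) 1 (Hh.e 1) (-1) 1 0).1
    rw [zpow_zero, mul_one] at e1
    rw [e1, T.tij _ _ _ (by simpa using hh) (by simp; omega) (by simp)]
    simp
  obtain ⟨N1, hN1⟩ := hend1
  obtain ⟨N2, hN2⟩ := hend2
  have m0 : ∀ f g : Hh, f.n = 1 → g.n = 1 → Bi ^ (1 : ℤ) * Bj ^ (-1 : ℤ) ∈ (D.Q (pt i j k f g 1)).1 := by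
    intro f g hf hg
    rw [mem_iff_parts]
    have e1 := (T.iij f g 1 (Hh.e 1) 1 (-1) 0).1
    have e2 := (T.iij f g 1 (Hh.e 1) (-1) 1 0).1
    rw [zpow_zero, mul_one] at e1 e2
    have e3 := (mem_iff_parts _ _).mp (mij f g (Hh.e 1) 1 (-1) (by omega) (by omega) (by simp) (by omega))
    have e4 : (Bi ^ (1 : ℤ) * Bj ^ (-1 : ℤ))⁻¹ = Bi ^ (-1 : ℤ) * Bj ^ (1 : ℤ) := by
      simp only [zpow_one, zpow_neg_one]; rw [mul_inv, inv_inv]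
    rw [e4] at e3 ⊢
    exact ⟨e1.mpr e3.1, e2.mpr e3.2⟩
  set h : ℤ := max N1 N2
  have hpos : 0 < F12 (fun _ => h) := by
    by_contra hcon
    have e1 := (D.low_spec (pt i j k ⟨fun _ => h, 1⟩ (Hh.e 1) 1)).2.1 _ (m0 _ _ rfl rfl)
    exact hN1 h (le_max_left _ _) (e1.mpr (not_lt.mp hcon))
  have hneg : F12 (fun _ => -h) < 0 := by
    obtain ⟨φ, hφ⟩ := exists_phi (fun _ => h)
    by_contra hcon
    have e0 : F12 (fun _ => -h) = W (pt i j k (Hh.e 1) (Hh.cst h 1) 1) (Bi ^ (1 : ℤ) * Bj ^ (-1 : ℤ)) := by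
      symm
      apply cj φ
      · refine ⟨rfl, fun x => ?_⟩
        have := hφ x
        simp only [Hh.e_f] at this ⊢
        linarith
      · refine ⟨rfl, fun x => ?_⟩
        have := hφ x
        simp only [Hh.e_f, Hh.cst_f, Hh.e_n] at this ⊢
        linarith
      · exact triv φ
    rw [e0] at hcon
    have hs := D.low_spec (pt i j k (Hh.e 1) (Hh.cst h 1) 1)
    have m1 := m0 (Hh.e 1) (Hh.cst h 1) rfl rfl
    have e1 := hs.2.1 _ (inv_mem m1)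
    have e2 := fun_zpow _ _ hs.1 _ m1 (-1)
    have e4 : (Bi ^ (1 : ℤ) * Bj ^ (-1 : ℤ))⁻¹ = Bi ^ (-1 : ℤ) * Bj ^ (1 : ℤ) := by
      simp only [zpow_one, zpow_neg_one]; rw [mul_inv, inv_inv]
    rw [zpow_neg_one] at e2
    have e3 := hN2 h (le_max_right _ _)
    rw [← pt_swap12 hij, ← e4, e1, e2] at e3
    apply e3
    simp only [hW] at hcon
    push_cast
    linarith
  exact low_pure F12 F23 F13 G _ _ h1 h2 h3 h hpos hneg

end Tri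

end Pool.H84.LG
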