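import Mathlib

set_option autoImplicit false

namespace Pool.H84.LG

/-- A strictly increasing completely multiplicative function is a power. -/
theorem power_mult (M : ℕ → ℝ) (h1 : M 1 = 1) (hpos : ∀ n, 0 < n → 0 < M n)
    (hmul : ∀ a b, 0 < a → 0 < b → M (a * b) = M a * M b)
    (hmono : ∀ a b, 0 < a → a < b → M a < M b) :
    0 < Real.log (M 2) / Real.log 2 ∧
      ∀ n : ℕ, 0 < n → M n = (n : ℝ) ^ (Real.log (M 2) / Real.log 2) := by
  have hl2 : 0 < Real.log 2 := Real.log_pos (by norm_num)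
  have hM2 : 1 < M 2 := by
    have := hmono 1 2 (by norm_num) (by norm_num)
    rw [h1] at this
    exact this
  have hL2 : 0 < Real.log (M 2) := Real.log_pos hM2
  refine ⟨by positivity, ?_⟩
  have hpow : ∀ a N : ℕ, 0 < a → M (a ^ N) = M a ^ N := by
    intro a N ha
    induction N with
    | zero => simp [h1]
    | succ N ih => rw [pow_succ, hmul _ _ (by positivity) ha, ih, pow_succ]
  intro n hn
  have hn0 : (0 : ℝ) < n := by exact_mod_cast hn
  have hMn := hpos n hn
  -- key comparison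
  have hkey : Real.log (M n) / Real.log (M 2) = Real.log n / Real.log 2 := by
    have hn1 : (0 : ℝ) ≤ Real.log n := Real.log_natCast_nonneg n
    have hMn1 : 1 ≤ M n := by
      rcases Nat.eq_or_lt_of_le hn with h | h
      · rw [← h, h1]
      · have := hmono 1 n (by norm_num) h
        rw [h1] at this
        exact this.le
    have hLn : 0 ≤ Real.log (M n) := Real.log_nonneg hMn1
    rcases lt_trichotomy (Real.log (M n) / Real.log (M 2)) (Real.log n / Real.log 2) with h | h | h
    · exfalso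
      obtain ⟨r, hr1, hr2⟩ := exists_rat_btwn h
      have hr0 : (0 : ℝ) < r := lt_of_le_of_lt (by positivity) hr1
      have hr0' : 0 < r := by exact_mod_cast hr0
      have hnum : 0 < r.num := Rat.num_pos.mpr hr0'
      have hden : 0 < r.den := r.den_pos
      obtain ⟨p, hp⟩ := Int.eq_ofNat_of_zero_le hnum.le
      have hrr : (r : ℝ) = (p : ℝ) / r.den := by
        have : (r : ℝ) = ((r.num : ℤ) : ℝ) / (r.den : ℝ) := by
          exact_mod_cast (Rat.num_div_den r).symm
        rw [this, hp]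
        simp
      have hd : (0 : ℝ) < r.den := by exact_mod_cast hden
      -- 2 ^ p < n ^ q
      have e1 : (p : ℝ) * Real.log 2 < r.den * Real.log n := by
        rw [hrr, div_lt_div_iff₀ hd hl2] at hr2
        linarith
      have e2 : (2 : ℕ) ^ p < n ^ r.den := by
        have : ((2 : ℕ) ^ p : ℝ) < (n : ℝ) ^ r.den := by
          rw [← Real.log_lt_log_iff (by positivity) (by positivity), Real.log_pow, Real.log_pow]
          exact_mod_cast e1
        exact_mod_cast this
      have e3 := hmono _ _ (by positivity) e2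
      rw [hpow _ _ (by norm_num), hpow _ _ hn] at e3
      have e4 : (p : ℝ) * Real.log (M 2) < r.den * Real.log (M n) := by
        rw [← Real.log_pow, ← Real.log_pow]
        exact Real.log_lt_log (by positivity) e3
      rw [hrr, div_lt_div_iff₀ hL2 hd] at hr1
      linarith
    · exact h
    · exfalso
      obtain ⟨r, hr1, hr2⟩ := exists_rat_btwn h
      have hr0 : (0 : ℝ) < r := lt_of_le_of_lt (by positivity) hr1
      have hr0' : 0 < r := by exact_mod_cast hr0
      have hnum : 0 < r.num := Rat.num_pos.mpr hr0'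
      have hden : 0 < r.den := r.den_pos
      obtain ⟨p, hp⟩ := Int.eq_ofNat_of_zero_le hnum.le
      have hrr : (r : ℝ) = (p : ℝ) / r.den := by
        have : (r : ℝ) = ((r.num : ℤ) : ℝ) / (r.den : ℝ) := by
          exact_mod_cast (Rat.num_div_den r).symm
        rw [this, hp]
        simp
      have hd : (0 : ℝ) < r.den := by exact_mod_cast hden
      have e1 : r.den * Real.log n < (p : ℝ) * Real.log 2 := by
        rw [hrr, div_lt_div_iff₀ hl2 hd] at hr1
        linarith
      have e2 : n ^ r.den < (2 : ℕ) ^ p := by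
        have : (n : ℝ) ^ r.den < ((2 : ℕ) ^ p : ℝ) := by
          rw [← Real.log_lt_log_iff (by positivity) (by positivity), Real.log_pow, Real.log_pow]
          exact_mod_cast e1
        exact_mod_cast this
      have e3 := hmono _ _ (by positivity) e2
      rw [hpow _ _ hn, hpow _ _ (by norm_num)] at e3
      have e4 : r.den * Real.log (M n) < (p : ℝ) * Real.log (M 2) := by
        rw [← Real.log_pow, ← Real.log_pow]
        exact Real.log_lt_log (by positivity) e3
      rw [hrr, div_lt_div_iff₀ hd hL2] at hr2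
      linarith
  rw [Real.rpow_def_of_pos hn0]
  rw [div_eq_div_iff hL2.ne' hl2.ne'] at hkey
  have : Real.log n * (Real.log (M 2) / Real.log 2) = Real.log (M n) := by
    field_simp
    linarith
  rw [this, Real.exp_log hMn]

/-- Scale invariance and the cocycle identity give a power law. -/
theorem power_pure (x y : ℕ → ℕ → ℕ → ℝ)
    (hx : ∀ a b c, 0 < a → 0 < b → 0 < c → 0 < x a b c)
    (hy : ∀ a b c, 0 < a → 0 < b → 0 < c → 0 < y a b c)
    (hxi : ∀ a b b' c, 0 < a → 0 < b → 0 < b' → 0 < c → x a b c = x a b' c)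
    (hyi : ∀ a a' b c, 0 < a → 0 < a' → 0 < b → 0 < c → y a b c = y a' b c)
    (hxy : ∀ a b c c', 0 < a → 0 < b → 0 < c → 0 < c' → x a b c / y a b c = x a b c' / y a b c')
    (hxs : ∀ N a b c, 0 < N → 0 < a → 0 < b → 0 < c → x (N * a) (N * b) (N * c) = x a b c)
    (hys : ∀ N a b c, 0 < N → 0 < a → 0 < b → 0 < c → y (N * a) (N * b) (N * c) = y a b c)
    (hg : ∀ ε : ℝ, 0 < ε → ∃ δ : ℝ, 0 < δ ∧
      ∀ a b : ℕ, 0 < a → 0 < b → (a : ℝ) < δ * b → x a b 1 < ε * y a b 1) :
    ∃ κ₁ κ₂ θ : ℝ, 0 < κ₁ ∧ 0 < κ₂ ∧ 0 < θ ∧ ∀ a b c : ℕ, 0 < a → 0 < b → 0 < c →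
      x a b c = κ₁ * ((a : ℝ) / c) ^ θ ∧ y a b c = κ₂ * ((b : ℝ) / c) ^ θ := by
  have h01 : (0 : ℕ) < 1 := by norm_num
  set X : ℕ → ℕ → ℝ := fun a c => x a 1 c with hX
  set Y : ℕ → ℕ → ℝ := fun b c => y 1 b c with hY
  have hXpos : ∀ a c, 0 < a → 0 < c → 0 < X a c := fun a c ha hc => hx a 1 c ha h01 hc
  have hYpos : ∀ b c, 0 < b → 0 < c → 0 < Y b c := fun b c hb hc => hy 1 b c h01 hb hc
  have hxX : ∀ a b c, 0 < a → 0 < b → 0 < c → x a b c = X a c :=
    fun a b c ha hb hc => hxi a b 1 c ha hb h01 hc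
  have hyY : ∀ a b c, 0 < a → 0 < b → 0 < c → y a b c = Y b c :=
    fun a b c ha hb hc => hyi a 1 b c ha h01 hb hc
  have hXY : ∀ a b c, 0 < a → 0 < b → 0 < c → X a c * Y b 1 = X a 1 * Y b c := by
    intro a b c ha hb hc
    have h := hxy a b c 1 ha hb hc h01
    rw [hxX a b c ha hb hc, hyY a b c ha hb hc, hxX a b 1 ha hb h01, hyY a b 1 ha hb h01,
      div_eq_div_iff (hYpos b c hb hc).ne' (hYpos b 1 hb h01).ne'] at h
    exact h
  have hXs : ∀ N a c, 0 < N → 0 < a → 0 < c → X (N * a) (N * c) = X a c := by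
    intro N a c hN ha hc
    have h := hxs N a 1 c hN ha h01 hc
    rw [hxX _ _ _ (Nat.mul_pos hN ha) (Nat.mul_pos hN h01) (Nat.mul_pos hN hc)] at h
    exact h
  have hYs : ∀ N b c, 0 < N → 0 < b → 0 < c → Y (N * b) (N * c) = Y b c := by
    intro N b c hN hb hc
    have h := hys N 1 b c hN h01 hb hc
    rw [hyY _ _ _ (Nat.mul_pos hN h01) (Nat.mul_pos hN hb) (Nat.mul_pos hN hc)] at h
    exact h
  have hX11 := hXpos 1 1 h01 h01
  have hY11 := hYpos 1 1 h01 h01
  set M : ℕ → ℝ := fun a => X a 1 / X 1 1 with hM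
  have hM1 : M 1 = 1 := by simp only [hM]; field_simp
  have hMpos : ∀ n, 0 < n → 0 < M n := fun n hn => div_pos (hXpos n 1 hn h01) hX11
  -- X a c = M a * X 1 c
  have e1 : ∀ a c, 0 < a → 0 < c → X a c = M a * X 1 c := by
    intro a c ha hc
    have h1 := hXY a 1 c ha h01 hc
    have h2 := hXY 1 1 c h01 h01 hc
    have hYc := hYpos 1 c h01 hc
    simp only [hM]
    rw [div_mul_eq_mul_div, eq_div_iff hX11.ne']
    have h3 : X a c * X 1 1 * (Y 1 1 * Y 1 c) = X a 1 * X 1 c * (Y 1 1 * Y 1 c) := by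
      calc X a c * X 1 1 * (Y 1 1 * Y 1 c) = (X a c * Y 1 1) * (X 1 1 * Y 1 c) := by ring
        _ = (X a 1 * Y 1 c) * (X 1 c * Y 1 1) := by rw [h1, h2]
        _ = _ := by ring
    exact mul_right_cancel₀ (mul_pos hY11 hYc).ne' h3
  have e2 : ∀ N, 0 < N → M N * X 1 N = X 1 1 := by
    intro N hN
    rw [← e1 N N hN hN]
    have := hXs N 1 1 hN h01 h01
    simpa using this
  have e3 : ∀ a c, 0 < a → 0 < c → X a c = X 1 1 * (M a / M c) := by
    intro a c ha hc
    rw [e1 a c ha hc, ← e2 c hc]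
    have := hMpos c hc
    field_simp
  have e4 : ∀ b c, 0 < b → 0 < c → Y b c = Y b 1 / M c := by
    intro b c hb hc
    have h1 := hXY 1 b c h01 hb hc
    rw [e3 1 c h01 hc, hM1] at h1
    have := hMpos c hc
    rw [eq_div_iff this.ne']
    have h2 : X 1 1 * (1 / M c) * Y b 1 * M c = X 1 1 * Y b c * M c := by rw [h1]
    have h3 : X 1 1 * (1 / M c) * Y b 1 * M c = X 1 1 * Y b 1 := by field_simp
    rw [h3] at h2
    have h4 : X 1 1 * (Y b c * M c) = X 1 1 * Y b 1 := by linarith
    exact mul_left_cancel₀ hX11.ne' h4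
  have e5 : ∀ b, 0 < b → Y b 1 = Y 1 1 * M b := by
    intro b hb
    have h1 := e4 b b hb hb
    have h2 := hYs b 1 1 hb h01 h01
    simp only [mul_one] at h2
    rw [h2] at h1
    have := hMpos b hb
    rw [h1]
    field_simp
  have e6 : ∀ b c, 0 < b → 0 < c → Y b c = Y 1 1 * (M b / M c) := by
    intro b c hb hc
    rw [e4 b c hb hc, e5 b hb]
    ring
  have hmul : ∀ a b, 0 < a → 0 < b → M (a * b) = M a * M b := by
    intro a b ha hb
    have h1 := hXs a b 1 ha hb h01
    rw [mul_one, e3 _ _ (Nat.mul_pos ha hb) ha, e3 _ _ hb h01, hM1] at h1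
    have h2 := mul_left_cancel₀ hX11.ne' h1
    have := hMpos a ha
    rw [div_one, div_eq_iff this.ne'] at h2
    rw [h2]
    ring
  have hpow : ∀ a N : ℕ, 0 < a → M (a ^ N) = M a ^ N := by
    intro a N ha
    induction N with
    | zero => simp [hM1]
    | succ N ih => rw [pow_succ, hmul _ _ (by positivity) ha, ih, pow_succ]
  have hmono : ∀ a b, 0 < a → a < b → M a < M b := by
    intro a b ha hab
    have hb : 0 < b := ha.trans hab
    obtain ⟨δ, hδ, hδ2⟩ := hg (X 1 1 / Y 1 1) (by positivity)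
    have haR : (0 : ℝ) < a := by exact_mod_cast ha
    have hbR : (0 : ℝ) < b := by exact_mod_cast hb
    have hratio : (a : ℝ) / b < 1 := by
      rw [div_lt_one hbR]
      exact_mod_cast hab
    obtain ⟨N, hN⟩ := exists_pow_lt_of_lt_one hδ hratio
    have h1 : ((a ^ N : ℕ) : ℝ) < δ * ((b ^ N : ℕ) : ℝ) := by
      push_cast
      rw [div_pow, div_lt_iff₀ (by positivity)] at hN
      exact hN
    have h2 := hδ2 (a ^ N) (b ^ N) (by positivity) (by positivity) h1
    rw [hxX _ _ _ (by positivity) (by positivity) h01, hyY _ _ _ (by positivity) (by positivity) h01,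
      e3 (a ^ N) 1 (by positivity) h01, e6 (b ^ N) 1 (by positivity) h01, hM1, div_one, div_one,
      hpow _ _ ha, hpow _ _ hb] at h2
    have h3 : M a ^ N < M b ^ N := by
      have h4 : X 1 1 / Y 1 1 * (Y 1 1 * M b ^ N) = X 1 1 * M b ^ N := by field_simp
      rw [h4] at h2
      exact lt_of_mul_lt_mul_left h2 hX11.le
    exact lt_of_pow_lt_pow_left₀ N (hMpos b hb).le h3
  obtain ⟨hθ, hMθ⟩ := power_mult M hM1 hMpos hmul hmono
  refine ⟨X 1 1, Y 1 1, Real.log (M 2) / Real.log 2, hX11, hY11, hθ, ?_⟩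
  intro a b c ha hb hc
  rw [hxX a b c ha hb hc, hyY a b c ha hb hc, e3 a c ha hc, e6 b c hb hc, hMθ a ha, hMθ b hb,
    hMθ c hc, Real.div_rpow (Nat.cast_nonneg _) (Nat.cast_nonneg _),
    Real.div_rpow (Nat.cast_nonneg _) (Nat.cast_nonneg _)]
  exact ⟨rfl, rfl⟩

end Pool.H84.LG
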