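import Pool.Agent.H84.LG.Data
import Pool.Agent.H84.LG.Power
import Pool.Agent.H84.LG.Line

set_option autoImplicit false

namespace Pool.H84.LG

/-- positive reals with the same integer sign conditions have the same ratio -/
theorem ratio_eq {x y x' y' : ℝ} (hx : 0 < x) (hy : 0 < y) (hx' : 0 < x') (hy' : 0 < y')
    (h : ∀ p q : ℤ, (p * x + q * y ≤ 0 ↔ p * x' + q * y' ≤ 0)) : x / y = x' / y' := by
  by_contra hne
  wlog hlt : x / y < x' / y' generalizing x y x' y'
  · exact this hx' hy' hx hy (fun p q => (h p q).symm) (Ne.symm hne)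
      (lt_of_le_of_ne (not_lt.mp hlt) (Ne.symm hne))
  obtain ⟨t, ht1, ht2⟩ := exists_rat_btwn hlt
  have hd : (0 : ℝ) < t.den := by exact_mod_cast t.den_pos
  have ht : (t : ℝ) = t.num / t.den := by
    conv_lhs => rw [← Rat.num_div_den t]
    push_cast; rfl
  rw [ht] at ht1 ht2
  have h1 : x * t.den < t.num * y := (div_lt_div_iff₀ hy hd).mp ht1
  have h2 : t.num * y' < x' * t.den := (div_lt_div_iff₀ hd hy').mp ht2
  have h3 := (h t.den (-t.num)).mp (by push_cast; linarith)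
  push_cast at h3
  linarith

namespace Dt
variable {I A : Type} [CommGroup A] [Lattice A] [MulLeftMono A] (D : Dt I A)

/-- the test points -/
noncomputable def w (i j k : I) (a b c : ℕ) : I → Hh := pt i j k (Hh.e a) (Hh.e b) (Hh.e c)

theorem val_b_pos (ω : I → Hh) (i k : I) (hi : 0 < (ω i).n) (hk : 0 < (ω k).n) :
    0 < val (D.Q ω) (D.b k) (D.b i) := by
  obtain ⟨_, h2, _⟩ := D.top_spec ω k hk
  by_contra hcon
  have h3 := (h2 (D.b i)).mpr (not_lt.mp hcon)
  rw [sup_eq_left.mpr (D.hb1 i), b_mem_Q] at h3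
  omega

theorem val_b_zero (ω : I → Hh) (i k : I) (hi : (ω i).n ≤ 0) (hk : 0 < (ω k).n) :
    val (D.Q ω) (D.b k) (D.b i) = 0 := by
  obtain ⟨h1, h2, _⟩ := D.top_spec ω k hk
  have h3 := (D.b_mem_Q ω i).mpr hi
  obtain ⟨h4, h5⟩ := (mem_iff_parts (D.Q ω) (D.b i)).mp h3
  have h6 := (h2 _).mp h4
  have h7 := (h2 _).mp h5
  have h8 := fun_zpow (⊤ : Subgroup A) _ (fun x _ y _ => h1 x y) (D.b i) (Subgroup.mem_top _) (-1)
  rw [zpow_neg_one] at h8
  push_cast at h8
  linarith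

/-- sign of a two-term combination -/
theorem sign2 (ω : I → Hh) (k : I) (hk : 0 < (ω k).n) (x y : A) (p q : ℤ) :
    (x ^ p * y ^ q) ⊔ 1 ∈ (D.Q ω).1 ↔
      p * val (D.Q ω) (D.b k) x + q * val (D.Q ω) (D.b k) y ≤ 0 := by
  obtain ⟨h1, h2, _⟩ := D.top_spec ω k hk
  rw [h2, h1, fun_zpow (⊤ : Subgroup A) _ (fun x _ y _ => h1 x y) x (Subgroup.mem_top _),
    fun_zpow (⊤ : Subgroup A) _ (fun x _ y _ => h1 x y) y (Subgroup.mem_top _)]

theorem top_main (i j k : I) (hij : i ≠ j) (hik : i ≠ k) (hjk : j ≠ k) (h1 : k ∉ D.Dp i j)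
    (h2 : j ∉ D.Dp i k) (h3 : i ∉ D.Dp j k) :
    ∃ p q r : ℕ, 0 < p ∧ 0 < q ∧ 0 < r ∧ ∀ a b c : ℕ, 0 < a → 0 < b → 0 < c →
      (p : ℝ) * val (D.Q (w i j k a b c)) (D.b k) (D.b i) = r * ((a : ℝ) / c) ∧
      (q : ℝ) * val (D.Q (w i j k a b c)) (D.b k) (D.b j) = r * ((b : ℝ) / c) := by
  -- exponents at the test points
  have wi : ∀ a b c : ℕ, ((w i j k a b c) i).n = a := fun a b c => by simp [w, pt_i]
  have wj : ∀ a b c : ℕ, ((w i j k a b c) j).n = b := fun a b c => by simp [w, pt_j hij]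
  have wk : ∀ a b c : ℕ, ((w i j k a b c) k).n = c := fun a b c => by simp [w, pt_k hik hjk]
  have wo : ∀ (a b c : ℕ) (m : I), m ≠ i → m ≠ j → m ≠ k → (w i j k a b c) m = 1 :=
    fun a b c m hm1 hm2 hm3 => by simp [w, pt_of hm1 hm2 hm3]
  set x : ℕ → ℕ → ℕ → ℝ := fun a b c => val (D.Q (w i j k a b c)) (D.b k) (D.b i) with hxdef
  set y : ℕ → ℕ → ℕ → ℝ := fun a b c => val (D.Q (w i j k a b c)) (D.b k) (D.b j) with hydef
  have hx : ∀ a b c, 0 < a → 0 < b → 0 < c → 0 < x a b c := fun a b c ha hb hc =>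
    D.val_b_pos _ i k (by rw [wi]; exact_mod_cast ha) (by rw [wk]; exact_mod_cast hc)
  have hy : ∀ a b c, 0 < a → 0 < b → 0 < c → 0 < y a b c := fun a b c ha hb hc =>
    D.val_b_pos _ j k (by rw [wj]; exact_mod_cast hb) (by rw [wk]; exact_mod_cast hc)
  have hVk : ∀ a b c, 0 < c → val (D.Q (w i j k a b c)) (D.b k) (D.b k) = 1 := fun a b c hc =>
    (D.top_spec _ k (by rw [wk]; exact_mod_cast hc)).2.2
  have hscale : ∀ N a b c, 0 < N → D.Q (w i j k (N * a) (N * b) (N * c)) = D.Q (w i j k a b c) := by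
    intro N a b c hN
    apply D.Q_homog N hN
    intro m
    by_cases hm1 : m = i
    · rw [hm1, wi, wi]; push_cast; rfl
    by_cases hm2 : m = j
    · rw [hm2, wj, wj]; push_cast; rfl
    by_cases hm3 : m = k
    · rw [hm3, wk, wk]; push_cast; rfl
    rw [wo _ _ _ m hm1 hm2 hm3, wo _ _ _ m hm1 hm2 hm3]; simp
  have hxi : ∀ a b b' c, 0 < a → 0 < b → 0 < b' → 0 < c → x a b c = x a b' c := by
    intro a b b' c ha hb hb' hc
    have key := ratio_eq (hx a b c ha hb hc) one_pos (hx a b' c ha hb' hc) one_pos (fun p q => by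
      have e1 := D.sign2 (w i j k a b c) k (by rw [wk]; exact_mod_cast hc) (D.b i) (D.b k) p q
      have e2 := D.sign2 (w i j k a b' c) k (by rw [wk]; exact_mod_cast hc) (D.b i) (D.b k) p q
      rw [hVk _ _ _ hc] at e1 e2
      rw [← e1, ← e2]
      have e3 := (D.indep h2 (w i j k a b c) (w i j k a b' c) (by
        intro m hm
        simp only [w, pt]
        by_cases hm1 : m = i
        · simp [hm1]
        · simp [hm1, hm]) p q 0).1
      simpa using e3)
    simpa using key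
  have hyi : ∀ a a' b c, 0 < a → 0 < a' → 0 < b → 0 < c → y a b c = y a' b c := by
    intro a a' b c ha ha' hb hc
    have key := ratio_eq (hy a b c ha hb hc) one_pos (hy a' b c ha' hb hc) one_pos (fun p q => by
      have e1 := D.sign2 (w i j k a b c) k (by rw [wk]; exact_mod_cast hc) (D.b j) (D.b k) p q
      have e2 := D.sign2 (w i j k a' b c) k (by rw [wk]; exact_mod_cast hc) (D.b j) (D.b k) p q
      rw [hVk _ _ _ hc] at e1 e2
      rw [← e1, ← e2]
      have e3 := (D.indep h3 (w i j k a b c) (w i j k a' b c) (by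
        intro m hm
        simp only [w, pt]
        simp [hm]) p q 0).1
      simpa using e3)
    simpa using key
  have hxy : ∀ a b c c', 0 < a → 0 < b → 0 < c → 0 < c' →
      x a b c / y a b c = x a b c' / y a b c' := by
    intro a b c c' ha hb hc hc'
    refine ratio_eq (hx a b c ha hb hc) (hy a b c ha hb hc) (hx a b c' ha hb hc')
      (hy a b c' ha hb hc') (fun p q => ?_)
    have e1 := D.sign2 (w i j k a b c) k (by rw [wk]; exact_mod_cast hc) (D.b i) (D.b j) p q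
    have e2 := D.sign2 (w i j k a b c') k (by rw [wk]; exact_mod_cast hc') (D.b i) (D.b j) p q
    rw [← e1, ← e2]
    have e3 := (D.indep h1 (w i j k a b c) (w i j k a b c') (by
      intro m hm
      simp only [w, pt]
      by_cases hm1 : m = i
      · simp [hm1]
      by_cases hm2 : m = j
      · simp [hm2]
      simp [hm1, hm2, hm]) p q 0).1
    simpa using e3
  have hg : ∀ ε : ℝ, 0 < ε → ∃ δ : ℝ, 0 < δ ∧
      ∀ a b : ℕ, 0 < a → 0 < b → (a : ℝ) < δ * b → x a b 1 < ε * y a b 1 := by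
    intro ε hε
    obtain ⟨m, hm⟩ := exists_nat_gt (1 / ε)
    have hm0 : (0 : ℝ) < m := lt_trans (by positivity) hm
    set X : A := D.b i ^ (-(m : ℤ)) * D.b j ^ (1 : ℤ) with hX
    -- at the point (0,1,0)
    have h010 : ¬ (X ⊔ 1 ∈ (D.Q (w i j k 0 1 0)).1) := by
      rw [hX, D.sign2 (w i j k 0 1 0) j (by rw [wj]; norm_num),
        D.val_b_zero _ i j (by rw [wi]; norm_num) (by rw [wj]; norm_num),
        (D.top_spec _ j (by rw [wj]; norm_num)).2.2]
      norm_num
    rw [D.mem_Q] at h010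
    obtain ⟨C, hC0, hC⟩ := lip i j k hij hik hjk (D.gy (X ⊔ 1))
    refine ⟨1 / (2 * C + 1), by positivity, fun a b ha hb hab => ?_⟩
    have hC0' : (0 : ℝ) ≤ C := by exact_mod_cast hC0
    have hab' : (2 * C + 1) * (a : ℤ) < b := by
      have : (a : ℝ) * (2 * C + 1) < b := by
        rw [one_div, inv_mul_eq_div, lt_div_iff₀ (by positivity)] at hab
        exact hab
      have h' : (((2 * C + 1) * (a : ℤ) : ℤ) : ℝ) < ((b : ℤ) : ℝ) := by push_cast; linarith
      exact_mod_cast h'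
    have hu : ((D.gy (X ⊔ 1)).1 (w i j k a b 1)).n ≠ 0 := by
      intro hu0
      have e1 := hC a b 1 0 b 0
      have e2 : ((D.gy (X ⊔ 1)).1 (w i j k 0 b 0)).n = b * ((D.gy (X ⊔ 1)).1 (w i j k 0 1 0)).n := by
        apply homog b
        intro m
        by_cases hm1 : m = i
        · rw [hm1, wi, wi]; simp
        by_cases hm2 : m = j
        · rw [hm2, wj, wj]; simp
        by_cases hm3 : m = k
        · rw [hm3, wk, wk]; simp
        rw [wo _ _ _ m hm1 hm2 hm3, wo _ _ _ m hm1 hm2 hm3]; simp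
      have e3 : (w i j k a b 1) = pt i j k (Hh.e a) (Hh.e b) (Hh.e 1) := rfl
      have e4 : (w i j k 0 b 0) = pt i j k (Hh.e 0) (Hh.e b) (Hh.e 0) := rfl
      rw [e3] at hu0
      rw [e4] at e2
      rw [hu0, e2] at e1
      have e5 : (1 : ℤ) ≤ |((D.gy (X ⊔ 1)).1 (w i j k 0 1 0)).n| := Int.one_le_abs h010
      have e6 : |(0 : ℤ) - b * ((D.gy (X ⊔ 1)).1 (w i j k 0 1 0)).n| =
          b * |((D.gy (X ⊔ 1)).1 (w i j k 0 1 0)).n| := by
        rw [zero_sub, abs_neg, abs_mul]; simp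
      rw [e6] at e1
      have e7 : |(a : ℤ) - 0| + |(b : ℤ) - b| + |(1 : ℤ) - 0| = a + 1 := by simp
      rw [e7] at e1
      have hb' : (0 : ℤ) < b := by exact_mod_cast hb
      have ha' : (0 : ℤ) < a := by exact_mod_cast ha
      nlinarith
    have hnot : ¬ (X ⊔ 1 ∈ (D.Q (w i j k a b 1)).1) := by rw [D.mem_Q]; exact hu
    rw [hX, D.sign2 (w i j k a b 1) k (by rw [wk]; norm_num)] at hnot
    push Not at hnot
    push_cast at hnot
    have e8 : (m : ℝ) * x a b 1 < y a b 1 := by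
      simp only [hxdef, hydef]; linarith
    have e9 : 1 < ε * m := by
      rw [div_lt_iff₀ hε] at hm; linarith
    have e10 := hx a b 1 ha hb one_pos
    calc x a b 1 = 1 * x a b 1 := (one_mul _).symm
      _ < (ε * m) * x a b 1 := by exact mul_lt_mul_of_pos_right e9 e10
      _ = ε * (m * x a b 1) := by ring
      _ < ε * y a b 1 := mul_lt_mul_of_pos_left e8 hε
  obtain ⟨κ₁, κ₂, θ, hκ₁, hκ₂, hθ, hpow⟩ := power_pure x y hx hy hxi hyi hxy
    (fun N a b c hN _ _ _ => by simp only [hxdef, hscale N a b c hN])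
    (fun N a b c hN _ _ _ => by simp only [hydef, hscale N a b c hN]) hg
  -- the three-term element
  set X : A := D.b i * D.b j * (D.b k)⁻¹ with hX
  obtain ⟨M, hM⟩ := forms i j k hij hik hjk (D.gy (X ⊔ 1))
  obtain ⟨C, hC0, hC⟩ := lip i j k hij hik hjk (D.gy (X ⊔ 1))
  obtain ⟨hθ1, p, q, r, hp, hq, hr, hpk, hqk⟩ := line_pure κ₁ κ₂ θ hκ₁ hκ₂ hθ
    (fun a b c => ((D.gy (X ⊔ 1)).1 (w i j k a b c)).n)
    (fun a b c _ _ _ => by
      have := Hh.n_mono (D.hgy1 (X ⊔ 1) (w i j k a b c))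
      simpa using this)
    (fun a b c ha hb hc => by
      have hk0 : 0 < ((w i j k a b c) k).n := by rw [wk]; exact_mod_cast hc
      obtain ⟨e1, e2, e3⟩ := D.top_spec (w i j k a b c) k hk0
      show ((D.gy (X ⊔ 1)).1 (w i j k a b c)).n = 0 ↔ _
      rw [← D.mem_Q, e2, hX, e1, e1]
      have e4 := fun_zpow (⊤ : Subgroup A) _ (fun x _ y _ => e1 x y) (D.b k) (Subgroup.mem_top _) (-1)
      rw [zpow_neg_one] at e4
      rw [e4, e3]
      obtain ⟨e5, e6⟩ := hpow a b c ha hb hc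
      rw [← e5, ← e6]
      simp only [hxdef, hydef]
      push_cast
      constructor <;> intro h <;> linarith)
    M
    (fun a b c _ _ _ => by
      obtain ⟨m, hm, hm'⟩ := hM a b c (by positivity) (by positivity) (by positivity)
      exact ⟨m, hm, hm'⟩)
    C
    (fun a b c _ _ _ => by
      have e1 := hC a (b + 1) c a b c
      have e2 : |(a : ℤ) - a| + |(b : ℤ) + 1 - b| + |(c : ℤ) - c| = 1 := by simp
      rw [e2, mul_one] at e1
      have e3 := le_of_abs_le e1
      have e4 : (w i j k a (b + 1) c) = pt i j k (Hh.e a) (Hh.e (b + 1)) (Hh.e c) := by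
        simp [w]
      have e5 : (w i j k a b c) = pt i j k (Hh.e a) (Hh.e b) (Hh.e c) := rfl
      rw [e4, e5]
      exact e3)
  refine ⟨p, q, r, hp, hq, hr, fun a b c ha hb hc => ?_⟩
  obtain ⟨e5, e6⟩ := hpow a b c ha hb hc
  rw [hθ1, Real.rpow_one] at e5 e6
  constructor
  · show (p : ℝ) * x a b c = _
    rw [e5, ← mul_assoc, hpk]
  · show (q : ℝ) * y a b c = _
    rw [e6, ← mul_assoc, hqk]

end Dt

end Pool.H84.LG
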